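import Mathlib
import Pool.Prelude.Def_H_3587d628

/-!
MP_6ff0c5_lc: the existential theory of the reals and the problem of compatible triangulations with Steiner points,
as languages (sets of binary words), and `∃ℝ`-hardness.
-/

set_option autoImplicit false

namespace Pool.Agent.Lib.MP_6ff0c5_lc

open N487b59b3 (bitEncode)

/-! ### The existential theory of the reals -/

/-- Terms built from `0`, `1`, variables, `+` and `×`. -/
inductive Term
  | zero
  | one
  | var (i : ℕ)
  | add (s t : Term)
  | mul (s t : Term)

/-- Quantifier-free formulas built from `=`, `<` and the Boolean connectives. -/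
inductive Fml
  | eq (s t : Term)
  | lt (s t : Term)
  | not (φ : Fml)
  | and (φ ψ : Fml)
  | or (φ ψ : Fml)

/-- The value of a term at real values of the variables. -/
def Term.val (x : ℕ → ℝ) : Term → ℝ
  | .zero => 0
  | .one => 1
  | .var i => x i
  | .add s t => s.val x + t.val x
  | .mul s t => s.val x * t.val x

/-- A formula holds over the real numbers at the given values of the variables. -/
def Fml.Holds (x : ℕ → ℝ) : Fml → Prop
  | .eq s t => s.val x = t.val x
  | .lt s t => s.val x < t.val x
  | .not φ => ¬ φ.Holds x
  | .and φ ψ => φ.Holds x ∧ ψ.Holds x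
  | .or φ ψ => φ.Holds x ∨ ψ.Holds x

/-- The sentence `∃ x₀ ∃ x₁ …, φ` (all variables of `φ` are quantified) is true over the real numbers. -/
def Fml.Sat (φ : Fml) : Prop := ∃ x : ℕ → ℝ, φ.Holds x

/-- The symbols of a formula. -/
inductive Tok
  | zero
  | one
  | var (i : ℕ)
  | add
  | mul
  | eq
  | lt
  | not
  | and
  | or
  deriving DecidableEq

/-- A term written in postfix notation. -/
def Term.toks : Term → List Tok
  | .zero => [.zero]
  | .one => [.one]
  | .var i => [.var i]
  | .add s t => s.toks ++ t.toks ++ [.add]
  | .mul s t => s.toks ++ t.toks ++ [.mul]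

/-- A formula written in postfix notation. -/
def Fml.toks : Fml → List Tok
  | .eq s t => s.toks ++ t.toks ++ [.eq]
  | .lt s t => s.toks ++ t.toks ++ [.lt]
  | .not φ => φ.toks ++ [.not]
  | .and φ ψ => φ.toks ++ ψ.toks ++ [.and]
  | .or φ ψ => φ.toks ++ ψ.toks ++ [.or]

/-- The number of a symbol, and the index of a variable. -/
def Tok.num : Tok → ℕ × ℕ
  | .zero => (0, 0)
  | .one => (1, 0)
  | .var i => (2, i)
  | .add => (3, 0)
  | .mul => (4, 0)
  | .eq => (5, 0)
  | .lt => (6, 0)
  | .not => (7, 0)
  | .and => (8, 0)
  | .or => (9, 0)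

/-- The binary word of a formula (numbers are written in binary). -/
def Fml.word (φ : Fml) : List Bool := bitEncode (φ.toks.map Tok.num)

/-- The existential theory of the reals: the words of the true existential sentences. -/
def ETR : Set (List Bool) := {w | ∃ φ : Fml, w = φ.word ∧ φ.Sat}

/-- `L` is `∃ℝ`-hard: ETR reduces to `L` by a function that is computable in polynomial time. -/
def ExistsRHard (L : Set (List Bool)) : Prop :=
  ∃ f : List Bool → List Bool, N68a2faeb.IsPolyTime f ∧ ∀ w, w ∈ ETR ↔ f w ∈ L

/-! ### Polygons with holes -/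

/-- Points of the plane. -/
abbrev Pt := ℝ × ℝ

/-- Twice the signed area of the triangle `a b c`; it is positive iff `a, b, c` is a counterclockwise triangle. -/
def orient (a b c : Pt) : ℝ := (b.1 - a.1) * (c.2 - a.2) - (b.2 - a.2) * (c.1 - a.1)

/-- The data of a polygon with holes with the vertices `0, …, n - 1`: the cyclic sequences of the vertices of the outer
polygon and of the holes, and the list of the (rational) coordinates of the vertices. -/
structure Poly where
  outer : List ℕ
  holes : List (List ℕ)
  pts : List (ℚ × ℚ)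

/-- The number of vertices. -/
def Poly.n (P : Poly) : ℕ := P.pts.length

/-- The position of a vertex. -/
def Poly.pos (P : Poly) (v : ℕ) : Pt := (((P.pts.getD v (0, 0)).1 : ℝ), ((P.pts.getD v (0, 0)).2 : ℝ))

/-- The edges of a closed polygon with the vertices `c₀, c₁, …`: the pairs of cyclically consecutive vertices. -/
def cycEdges (c : List ℕ) : List (ℕ × ℕ) := c.zip (c.rotate 1)

/-- All boundary polygons. -/
def Poly.cycles (P : Poly) : List (List ℕ) := P.outer :: P.holes

/-- All boundary edges. -/
def Poly.edges (P : Poly) : List (ℕ × ℕ) := P.cycles.flatMap cycEdges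

/-- The vertical ray going up from `x` crosses the edge `a b` (the left end of the edge belongs to it, the right end does
not). -/
def Crosses (x a b : Pt) : Prop :=
  (a.1 ≤ x.1 ∧ x.1 < b.1 ∧ orient a b x < 0) ∨ (b.1 ≤ x.1 ∧ x.1 < a.1 ∧ orient b a x < 0)

open Classical in
/-- The number of edges of the closed polygon `c` (with the positions `p` of its vertices) that the vertical ray going up
from `x` crosses. -/
noncomputable def crossings (p : ℕ → Pt) (c : List ℕ) (x : Pt) : ℕ :=
  (cycEdges c).countP fun e => decide (Crosses x (p e.1) (p e.2))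

/-- The point `x` (not on the polygon) lies inside the closed polygon `c` (even–odd rule). -/
def Inside (p : ℕ → Pt) (c : List ℕ) (x : Pt) : Prop := Odd (crossings p c x)

/-- The union of the boundary polygons. -/
def Poly.boundary (P : Poly) : Set Pt := {x | ∃ e ∈ P.edges, x ∈ segment ℝ (P.pos e.1) (P.pos e.2)}

/-- The polygon with holes, a closed region of the plane. -/
def Poly.region (P : Poly) : Set Pt :=
  P.boundary ∪ {x | Inside P.pos P.outer x ∧ ∀ c ∈ P.holes, ¬ Inside P.pos c x}

/-- The data describe a polygon with holes: every vertex is on exactly one of the boundary polygons, these are pairwise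
disjoint simple polygons, the holes lie inside the outer polygon, and no hole lies inside another one. -/
structure Poly.Valid (P : Poly) : Prop where
  vertices : P.cycles.flatten.Perm (List.range P.n)
  three : ∀ c ∈ P.cycles, 3 ≤ c.length
  distinct : Set.InjOn P.pos {v | v < P.n}
  simple : ∀ e ∈ P.edges, ∀ f ∈ P.edges, e ≠ f →
    segment ℝ (P.pos e.1) (P.pos e.2) ∩ segment ℝ (P.pos f.1) (P.pos f.2) =
      P.pos '' ({e.1, e.2} ∩ {f.1, f.2})
  inside : ∀ c ∈ P.holes, ∀ v ∈ c, Inside P.pos P.outer (P.pos v)
  apart : ∀ c ∈ P.holes, ∀ d ∈ P.holes, c ≠ d → ∀ v ∈ c, ¬ Inside P.pos d (P.pos v)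

/-! ### Compatible triangulations -/

/-- `T` is a triangulation of the region `R` whose vertices are the points `p v`, `v ∈ V`: its elements are (the vertex
sets of) nondegenerate triangles, two triangles meet exactly in their common face, every `v ∈ V` is a vertex of a
triangle, and the union of the closed triangles is `R`. -/
structure IsTriangulation (R : Set Pt) (V : Finset ℕ) (p : ℕ → Pt) (T : Finset (Finset ℕ)) : Prop where
  inj : Set.InjOn p V
  three : ∀ t ∈ T, t ⊆ V ∧ t.card = 3
  indep : ∀ t ∈ T, AffineIndependent ℝ fun v : t => p v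
  inter : ∀ s ∈ T, ∀ t ∈ T,
    convexHull ℝ (p '' s) ∩ convexHull ℝ (p '' t) = convexHull ℝ (p '' (s ∩ t : Finset ℕ))
  used : ∀ v ∈ V, ∃ t ∈ T, v ∈ t
  union : (⋃ t ∈ T, convexHull ℝ (p '' t)) = R

/-- Two vertices are neighbours in a triangulation. -/
def Adj (T : Finset (Finset ℕ)) (u v : ℕ) : Prop := u ≠ v ∧ ∃ t ∈ T, u ∈ t ∧ v ∈ t

/-- Seen from `v`, the points `a, b, c` lie in this counterclockwise cyclic order: of the three angles from `a` to `b`,
from `b` to `c` and from `c` to `a` (counterclockwise, in `[0, 2π)`), at least two are in `(0, π)`. -/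
def Ccw (v a b c : Pt) : Prop :=
  (0 < orient v a b ∧ 0 < orient v b c) ∨ (0 < orient v b c ∧ 0 < orient v c a) ∨
    (0 < orient v c a ∧ 0 < orient v a b)

/-- Two triangulations on the same labels have the same rotation system: every label has the same neighbours, in the
same cyclic order. -/
def SameRotation (p : ℕ → Pt) (S : Finset (Finset ℕ)) (q : ℕ → Pt) (T : Finset (Finset ℕ)) : Prop :=
  (∀ u v, Adj S u v ↔ Adj T u v) ∧
    ∀ v a b c, Adj S v a → Adj S v b → Adj S v c →
      (Ccw (p v) (p a) (p b) (p c) ↔ Ccw (q v) (q a) (q b) (q c))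

/-- The polygons with holes `P` and `Q`, whose vertices have the same labels, can be extended by at most `k` Steiner
points to compatible triangulations: there are `s ≤ k` new labels `n, …, n + s - 1`, and triangulations of `P` and of `Q`
with the vertices `0, …, n + s - 1` that have the same rotation system. -/
def CompatibleWith (P Q : Poly) (k : ℕ) : Prop :=
  ∃ s ≤ k, ∃ p q : ℕ → Pt, (∀ v < P.n, p v = P.pos v ∧ q v = Q.pos v) ∧
    ∃ S T : Finset (Finset ℕ), IsTriangulation P.region (Finset.range (P.n + s)) p S ∧
      IsTriangulation Q.region (Finset.range (P.n + s)) q T ∧ SameRotation p S q T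

/-- The binary word of an instance (numbers are written in binary). -/
def ctWord (P Q : Poly) (k : ℕ) : List Bool :=
  bitEncode ((P.outer, P.holes, P.pts), (Q.outer, Q.holes, Q.pts), k)

/-- Compatible triangulation with Steiner points. -/
def CT : Set (List Bool) :=
  {w | ∃ (P Q : Poly) (k : ℕ), w = ctWord P Q k ∧ P.Valid ∧ Q.Valid ∧ P.n = Q.n ∧ CompatibleWith P Q k}

end Pool.Agent.Lib.MP_6ff0c5_lc
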