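import Pool.Agent.Lib.MP_6ff0c5_lc.C.NotInt
import Pool.Agent.Lib.MP_6ff0c5_lc.C.LayData
import Pool.Agent.Lib.MP_6ff0c5_lc.Net.Lay
import Pool.Agent.Lib.MP_6ff0c5_lc.C.Pos
import Pool.Agent.Lib.MP_6ff0c5_lc.C.Forced
import Pool.Agent.Lib.MP_6ff0c5_lc.Net.Cmp.Final
import Pool.Agent.Lib.MP_6ff0c5_lc.C.Sound
import Pool.Agent.Lib.MP_6ff0c5_lc.C.GSound
import Pool.Agent.Lib.MP_6ff0c5_lc.Net.Snd.Final

section

/-!
MP_6ff0c5_lc: integer arithmetic in the typed polynomial time calculus (absolute values in unary).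
-/

set_option autoImplicit false
set_option linter.unusedSectionVars false

namespace Pool.Agent.Lib.MP_6ff0c5_lc.PTA

open Pool.Agent.Lib.MP_20e1d9_lc (PT PT.of_eq PT.of_word PT.size)
open Pool.Agent.Lib.MP_20e1d9_lc.PL
open Pool.Agent.Lib.PLib
open Pool.Agent.Lib.MP_9c2350_lc

variable {α β γ : Type} [Enc α] [Enc β] [Enc γ]

/-- quotients of natural numbers -/
@[fun_prop]
theorem divN {f g : α → ℕ} (hf : PT f) (hg : PT g) : PT (fun x => f x / g x) := by
  have h : PT fun x => if g x = 0 then 0 else (List.range (f x)).countP fun j => decide ((j + 1) * g x ≤ f x) := by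
    fun_prop
  refine h.of_eq fun x => ?_
  split_ifs with h0
  · rw [h0, Nat.div_zero]
  · have hpos : 0 < g x := Nat.pos_of_ne_zero h0
    have key : ∀ n m : ℕ, n ≤ m → ((List.range n).countP fun j => decide ((j + 1) * g x ≤ m)) = min n (m / g x) := by
      intro n m hn
      induction n with
      | zero => simp
      | succ n ih =>
        rw [List.range_succ, List.countP_append, ih (by omega), List.countP_singleton]
        have e : decide ((n + 1) * g x ≤ m) = decide (n + 1 ≤ m / g x) := by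
          rw [decide_eq_decide, Nat.le_div_iff_mul_le hpos]
        rw [e]
        by_cases h1 : n + 1 ≤ m / g x
        · rw [decide_eq_true h1, if_pos rfl]; omega
        · rw [decide_eq_false h1]; simp only [Bool.false_eq_true, if_false]; omega
    rw [key _ _ le_rfl]
    exact min_eq_right (Nat.div_le_self _ _)

/-- remainders of natural numbers -/
@[fun_prop]
theorem modN {f g : α → ℕ} (hf : PT f) (hg : PT g) : PT (fun x => f x % g x) := by
  have h : PT fun x => f x - g x * (f x / g x) := by fun_prop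
  refine h.of_eq fun x => ?_
  have := Nat.div_add_mod (f x) (g x)
  omega

@[fun_prop]
theorem subNatZ {f g : α → ℕ} (hf : PT f) (hg : PT g) : PT (fun x => (f x : ℤ) - (g x : ℤ)) := by
  apply of_zparts
  have h : PT fun x => ((f x - g x) + (g x - f x), decide (f x < g x)) := by fun_prop
  refine h.of_eq fun x => ?_
  have e1 : ((f x : ℤ) - (g x : ℤ)).natAbs = (f x - g x) + (g x - f x) := by omega
  have e2 : decide ((f x : ℤ) - (g x : ℤ) < 0) = decide (f x < g x) := by rw [decide_eq_decide]; omega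
  rw [e1, e2]

/-- from a sign and an absolute value -/
@[fun_prop]
theorem natCastZ {f : α → ℕ} (hf : PT f) : PT (fun x => (f x : ℤ)) := by
  have h := subNatZ hf (g := fun _ => 0) (by fun_prop)
  refine h.of_eq fun x => ?_
  simp

@[fun_prop]
theorem toNatZ {f : α → ℤ} (hf : PT f) : PT (fun x => (f x).toNat) := by
  have h : PT fun x => if decide (f x < 0) = true then 0 else (f x).natAbs := by fun_prop
  refine h.of_eq fun x => ?_
  by_cases h0 : f x < 0
  · rw [if_pos (by simpa using h0)]; omega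
  · rw [if_neg (by simpa using h0)]; omega

@[fun_prop]
theorem addZ {f g : α → ℤ} (hf : PT f) (hg : PT g) : PT (fun x => f x + g x) := by
  have h := subNatZ (f := fun x => (f x).toNat + (g x).toNat) (g := fun x => (-f x).toNat + (-g x).toNat) (by fun_prop)
    (by fun_prop)
  refine h.of_eq fun x => ?_
  omega

@[fun_prop]
theorem subZ {f g : α → ℤ} (hf : PT f) (hg : PT g) : PT (fun x => f x - g x) := by
  have h : PT fun x => f x + -g x := by fun_prop
  exact h.of_eq fun x => by ring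

@[fun_prop]
theorem mulZ {f g : α → ℤ} (hf : PT f) (hg : PT g) : PT (fun x => f x * g x) := by
  have h := subNatZ (f := fun x => (f x).toNat * (g x).toNat + (-f x).toNat * (-g x).toNat)
    (g := fun x => (-f x).toNat * (g x).toNat + (f x).toNat * (-g x).toNat) (by fun_prop) (by fun_prop)
  refine h.of_eq fun x => ?_
  have e1 : f x = ((f x).toNat : ℤ) - ((-f x).toNat : ℤ) := by omega
  have e2 : g x = ((g x).toNat : ℤ) - ((-g x).toNat : ℤ) := by omega
  conv_rhs => rw [e1, e2]
  push_cast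
  ring

@[fun_prop]
theorem ltZ {f g : α → ℤ} (hf : PT f) (hg : PT g) : PT (fun x => decide (f x < g x)) := by
  have h : PT fun x => decide ((f x).toNat + (-g x).toNat < (g x).toNat + (-f x).toNat) := by fun_prop
  refine h.of_eq fun x => ?_
  rw [decide_eq_decide]; omega

@[fun_prop]
theorem leZ {f g : α → ℤ} (hf : PT f) (hg : PT g) : PT (fun x => decide (f x ≤ g x)) := by
  have h : PT fun x => decide ((f x).toNat + (-g x).toNat ≤ (g x).toNat + (-f x).toNat) := by fun_prop
  refine h.of_eq fun x => ?_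
  rw [decide_eq_decide]; omega

@[fun_prop]
theorem eqZ {f g : α → ℤ} (hf : PT f) (hg : PT g) : PT (fun x => decide (f x = g x)) := by
  have h : PT fun x => decide ((f x).toNat + (-g x).toNat = (g x).toNat + (-f x).toNat) := by fun_prop
  refine h.of_eq fun x => ?_
  rw [decide_eq_decide]; omega

/-- quotients of integers by natural numbers -/
theorem divZN {f : α → ℤ} (hf : PT f) {k : α → ℕ} (hk : PT k) : PT (fun x => f x / (k x : ℤ)) := by
  have h : PT fun x => if k x = 0 then 0 else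
      ((((f x).toNat / k x : ℕ) : ℤ) - ((((-f x).toNat + (k x - 1)) / k x : ℕ) : ℤ)) := by
    fun_prop
  refine h.of_eq fun x => ?_
  split_ifs with hk0
  · rw [hk0]; simp
  have hk1 : 0 < k x := Nat.pos_of_ne_zero hk0
  have hk' : (0 : ℤ) < k x := by exact_mod_cast hk1
  rcases le_or_gt 0 (f x) with h0 | h0
  · have e1 : (-f x).toNat = 0 := by omega
    have e2 : ((f x).toNat : ℤ) = f x := by omega
    have e3 : (k x - 1) / k x = 0 := Nat.div_eq_of_lt (by omega)
    rw [e1, Nat.zero_add, e3]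
    push_cast
    rw [e2]; ring
  · have e1 : (f x).toNat = 0 := by omega
    have e2 : ((-f x).toNat : ℤ) = -f x := by omega
    rw [e1, Nat.zero_div]
    push_cast
    rw [e2, Nat.cast_sub (by omega)]
    push_cast
    rw [zero_sub]
    have h1 := Int.emod_add_mul_ediv (f x) (k x)
    have h2 := Int.emod_nonneg (f x) hk'.ne'
    have h3 := Int.emod_lt_of_pos (f x) hk'
    have h4 : (-f x + ((k x : ℤ) - 1)) / k x = -(f x / k x) := by
      rw [Int.ediv_eq_iff_of_pos hk']
      constructor <;> nlinarith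
    rw [h4, neg_neg]

/-- Euclidean division -/
@[fun_prop]
theorem divZ {f g : α → ℤ} (hf : PT f) (hg : PT g) : PT (fun x => f x / g x) := by
  have h1 := divZN hf (k := fun x => (g x).natAbs) (by fun_prop)
  have h : PT fun x => if decide (g x < 0) = true then -(f x / ((g x).natAbs : ℤ)) else f x / ((g x).natAbs : ℤ) := by
    fun_prop
  refine h.of_eq fun x => ?_
  by_cases h0 : g x < 0
  · rw [if_pos (by simpa using h0)]
    have : ((g x).natAbs : ℤ) = -g x := by omega
    rw [this, Int.ediv_neg, neg_neg]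
  · rw [if_neg (by simpa using h0)]
    have : ((g x).natAbs : ℤ) = g x := by omega
    rw [this]

@[fun_prop]
theorem modZ {f g : α → ℤ} (hf : PT f) (hg : PT g) : PT (fun x => f x % g x) := by
  have h : PT fun x => f x - g x * (f x / g x) := by fun_prop
  refine h.of_eq fun x => ?_
  rw [Int.emod_def]

end Pool.Agent.Lib.MP_6ff0c5_lc.PTA
end

section

/-!
MP_6ff0c5_lc: the binary word of an instance of compatible triangulation with integer coordinates is computed in
polynomial time from unary data; the final theorem from a reduction of LQ instances.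
-/

set_option autoImplicit false
set_option linter.unusedSectionVars false

namespace Pool.Agent.Lib.MP_6ff0c5_lc.PTA

open Pool.Agent.Lib.MP_20e1d9_lc (PT PT.of_eq PT.of_word PT.size)
open Pool.Agent.Lib.MP_20e1d9_lc.PL
open Pool.Agent.Lib.PLib
open Pool.Agent.Lib.MP_9c2350_lc
open Pool.Agent.Lib.MP_6ff0c5_lc
open Pool.Agent.Lib.MP_6ff0c5_lc.LQ
open N487b59b3 (bitEncode delimit)

variable {α γ : Type} [Enc α] [Enc γ]

/-! ### Binary numbers -/

/-- the binary successor -/
def bsucc : List Bool → List Bool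
  | [] => [true]
  | false :: w => true :: w
  | true :: w => false :: bsucc w

/-- a step of the successor: carry and reversed output -/
def cstep (s : Bool × List Bool) (b : Bool) : Bool × List Bool :=
  if s.1 = true then (b, (!b) :: s.2) else (false, b :: s.2)

theorem foldl_cstep_false (w o : List Bool) : w.foldl cstep (false, o) = (false, w.reverse ++ o) := by
  induction w generalizing o with
  | nil => rfl
  | cons b w ih =>
    rw [List.foldl_cons]
    have : cstep (false, o) b = (false, b :: o) := rfl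
    rw [this, ih]
    simp

theorem bsucc_eq (w o : List Bool) :
    (let s := w.foldl cstep (true, o); (if s.1 = true then true :: s.2 else s.2).reverse) = o.reverse ++ bsucc w := by
  induction w generalizing o with
  | nil => simp [bsucc]
  | cons b w ih =>
    rw [List.foldl_cons]
    cases b with
    | false =>
      have : cstep (true, o) false = (false, true :: o) := rfl
      rw [this, foldl_cstep_false]
      simp [bsucc]
    | true =>
      have : cstep (true, o) true = (true, false :: o) := rfl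
      rw [this, ih]
      simp [bsucc]

theorem sz_cstep_le (s : Bool × List Bool) (b : Bool) : sz (cstep s b) ≤ sz s + 6 := by
  obtain ⟨c, o⟩ := s
  have h1 := sz_bool b
  have h2 := sz_bool (!b)
  have h3 : sz false = 1 := rfl
  have h4 := sz_pos c
  unfold cstep
  simp only
  split_ifs
  · rw [sz_pair, sz_pair, sz_cons]; omega
  · rw [sz_pair, sz_pair, sz_cons]; omega

@[fun_prop]
theorem bsuccPT {f : α → List Bool} (hf : PT f) : PT (fun x => bsucc (f x)) := by
  have h : PT fun x => (f x).foldl cstep (true, []) := by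
    refine foldlA (step := fun _ s b => cstep s b) hf (by fun_prop) ?_ (PB.const 6) (fun x s b _ => sz_cstep_le s b)
    unfold cstep
    fun_prop
  have h2 : PT fun x => (if ((f x).foldl cstep (true, [])).1 = true then true :: ((f x).foldl cstep (true, [])).2
    else ((f x).foldl cstep (true, [])).2).reverse := by
    fun_prop
  exact h2.of_eq fun x => by
    have := bsucc_eq (f x) []
    simpa using this

theorem sz_bsucc_le (w : List Bool) : sz (bsucc w) ≤ sz w + 6 := by
  have h3 : sz false = 1 := rfl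
  have h4 : sz true = 3 := rfl
  have h5 : sz ([] : List Bool) = 1 := rfl
  induction w with
  | nil => unfold bsucc; rw [sz_cons]; omega
  | cons b w ih =>
    cases b with
    | false => unfold bsucc; rw [sz_cons, sz_cons]; omega
    | true => unfold bsucc; rw [sz_cons, sz_cons]; omega

theorem encodePosNum_succ (n : PosNum) : Computability.encodePosNum (PosNum.succ n) = bsucc (Computability.encodePosNum n) := by
  induction n with
  | one => rfl
  | bit0 n ih => rfl
  | bit1 n ih =>
    show false :: Computability.encodePosNum (PosNum.succ n) = false :: bsucc (Computability.encodePosNum n)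
    rw [ih]

theorem bitEncode_succ (n : ℕ) : bitEncode (n + 1) = bsucc (bitEncode n) := by
  show Computability.encodeNat (n + 1) = bsucc (Computability.encodeNat n)
  unfold Computability.encodeNat
  rw [Nat.cast_succ, Num.add_one]
  cases (n : Num) with
  | zero => rfl
  | pos m =>
    show Computability.encodePosNum (PosNum.succ m) = _
    rw [encodePosNum_succ]
    rfl

theorem bitEncode_nat_eq (n : ℕ) : bitEncode n = (List.range n).foldl (fun w _ => bsucc w) [] := by
  induction n with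
  | zero => rfl
  | succ n ih => rw [bitEncode_succ, ih, List.range_succ, List.foldl_append]; rfl

@[fun_prop]
theorem encNatPT {f : α → ℕ} (hf : PT f) : PT (fun x => bitEncode (f x)) := by
  have h : PT fun x => (List.range (f x)).foldl (fun w _ => bsucc w) [] := by
    refine foldlA (step := fun _ (w : List Bool) (_ : ℕ) => bsucc w) (by fun_prop) (by fun_prop) (by fun_prop)
      (PB.const 6) (fun x s b _ => sz_bsucc_le s)
  exact h.of_eq fun x => (bitEncode_nat_eq _).symm

@[fun_prop]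
theorem encPairPT {β δ : Type} [N487b59b3 β] [N487b59b3 δ] {f : α → β} {g : α → δ}
    (hf : PT fun x => bitEncode (f x)) (hg : PT fun x => bitEncode (g x)) :
    PT (fun x => bitEncode ((f x, g x) : β × δ)) := by
  have h : PT fun x => delimit (bitEncode (f x)) ++ bitEncode (g x) := by fun_prop
  exact h

theorem encListPT {β : Type} [Enc β] [N487b59b3 β] {f : α → List β} (hf : PT f)
    (he : PT fun b : β => bitEncode b) : PT (fun x => bitEncode (f x)) := by
  have h1 : PT fun y : α × β => delimit (bitEncode y.2) := delimitPT (he.comp (snd id))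
  have h : PT fun x => (f x).flatMap fun b => delimit (bitEncode b) :=
    flatMap (f := fun (_ : α) (b : β) => delimit (bitEncode b)) hf h1
  refine h.of_eq fun x => ?_
  show _ = (((f x).map bitEncode).map delimit).flatten
  rw [List.map_map, List.flatMap_def]
  rfl

theorem toNatPT {f : α → ℤ} (hf : PT f) : PT (fun x => (f x).toNat) := by
  have h : PT fun x => if f x < 0 then 0 else (f x).natAbs := by fun_prop
  refine h.of_eq fun x => ?_
  split_ifs <;> omega

theorem encIntPT {f : α → ℤ} (hf : PT f) : PT (fun x => bitEncode (f x)) := by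
  have h1 := toNatPT hf
  have h2 := toNatPT (negZ hf)
  have h : PT fun x => delimit (bitEncode (f x).toNat) ++ bitEncode (-(f x)).toNat := by fun_prop
  exact h

/-- the code of an integer as a rational number -/
theorem bitEncode_intCast (z : ℤ) : bitEncode (z : ℚ) = delimit (bitEncode z) ++ bitEncode 1 := by
  show bitEncode ((z : ℚ).num, (z : ℚ).den) = _
  rw [Rat.num_intCast, Rat.den_intCast]
  rfl

/-! ### Instances of compatible triangulation -/

/-- A polygon with holes with integer coordinates. -/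
abbrev IPoly := List ℕ × List (List ℕ) × List (ℤ × ℤ)

/-- the polygon with holes -/
def mkPoly (x : IPoly) : Poly := ⟨x.1, x.2.1, x.2.2.map fun z => ((z.1 : ℚ), (z.2 : ℚ))⟩

theorem encListNatPT {f : α → List ℕ} (hf : PT f) : PT (fun x => bitEncode (f x)) :=
  encListPT hf (encNatPT id)

theorem encListListNatPT {f : α → List (List ℕ)} (hf : PT f) : PT (fun x => bitEncode (f x)) :=
  encListPT hf (encListNatPT id)

theorem encPtsPT {f : α → List (ℤ × ℤ)} (hf : PT f) :
    PT (fun x => bitEncode ((f x).map fun z => ((z.1 : ℚ), (z.2 : ℚ)))) := by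
  have e1 : PT fun y : α × (ℤ × ℤ) => bitEncode y.2.1 := encIntPT (fst (snd id))
  have e2 : PT fun y : α × (ℤ × ℤ) => bitEncode y.2.2 := encIntPT (snd (snd id))
  have h1 : PT fun y : α × (ℤ × ℤ) => delimit (delimit (delimit (bitEncode y.2.1) ++ bitEncode 1) ++
      (delimit (bitEncode y.2.2) ++ bitEncode 1)) := by fun_prop
  have h : PT fun x => (f x).flatMap fun z => delimit (delimit (delimit (bitEncode z.1) ++ bitEncode 1) ++
      (delimit (bitEncode z.2) ++ bitEncode 1)) :=
    flatMap (f := fun (_ : α) (z : ℤ × ℤ) => delimit (delimit (delimit (bitEncode z.1) ++ bitEncode 1) ++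
      (delimit (bitEncode z.2) ++ bitEncode 1))) hf h1
  refine h.of_eq fun x => ?_
  show _ = ((((f x).map fun z => ((z.1 : ℚ), (z.2 : ℚ))).map bitEncode).map delimit).flatten
  rw [List.map_map, List.map_map, List.flatMap_def]
  congr 1

theorem ctWordPT {P Q : α → IPoly} {k : α → ℕ} (hP : PT P) (hQ : PT Q) (hk : PT k) :
    PT (fun x => ctWord (mkPoly (P x)) (mkPoly (Q x)) (k x)) := by
  have p1 : PT fun x => bitEncode (P x).1 := encListNatPT (fst hP)
  have p2 : PT fun x => bitEncode (P x).2.1 := encListListNatPT (fst (snd hP))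
  have p3 := encPtsPT (snd (snd hP))
  have q1 : PT fun x => bitEncode (Q x).1 := encListNatPT (fst hQ)
  have q2 : PT fun x => bitEncode (Q x).2.1 := encListListNatPT (fst (snd hQ))
  have q3 := encPtsPT (snd (snd hQ))
  have k1 : PT fun x => bitEncode (k x) := encNatPT hk
  exact encPairPT (encPairPT p1 (encPairPT p2 p3)) (encPairPT (encPairPT q1 (encPairPT q2 q3)) k1)

/-! ### The final theorem from a reduction of LQ instances -/

/-- A polynomial time reduction of LQ instances to compatible triangulation. -/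
structure BCRed where
  g : (List Bool × ℕ × List Form) × ℕ → IPoly × IPoly × ℕ
  pt : PT g
  complete : ∀ x, (toInst x.1).WF → (∃ z, (toInst x.1).Sol (-(1 / 2 ^ (2 ^ x.2))) z) →
    (mkPoly (g x).1).Valid ∧ (mkPoly (g x).2.1).Valid ∧ (mkPoly (g x).1).n = (mkPoly (g x).2.1).n ∧
      CompatibleWith (mkPoly (g x).1) (mkPoly (g x).2.1) (g x).2.2
  sound : ∀ x, (toInst x.1).WF → CompatibleWith (mkPoly (g x).1) (mkPoly (g x).2.1) (g x).2.2 →
    ∃ z, (toInst x.1).Sol (1 / 2 ^ (2 ^ x.2)) z

theorem ctWord_inj {P Q P' Q' : Poly} {k k' : ℕ} (h : ctWord P Q k = ctWord P' Q' k') : P = P' ∧ Q = Q' ∧ k = k' := by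
  have h1 := N487b59b3.bitEncode_injective h
  simp only [Prod.mk.injEq] at h1
  obtain ⟨⟨a1, a2, a3⟩, ⟨b1, b2, b3⟩, hk⟩ := h1
  refine ⟨?_, ?_, hk⟩
  · cases P; cases P'; simp_all
  · cases Q; cases Q'; simp_all

theorem hard_of_BCRed (B : BCRed) : ExistsRHard CT := by
  have h1 : PT fun w => B.g (lqW w) := B.pt.comp lqW_PT
  have h2 : PT fun w => ctWord (mkPoly (B.g (lqW w)).1) (mkPoly (B.g (lqW w)).2.1) (B.g (lqW w)).2.2 :=
    ctWordPT (fst h1) (fst (snd h1)) (snd (snd h1))
  refine ⟨_, isPolyTime_of_PT h2, fun w => ?_⟩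
  constructor
  · intro hw
    obtain ⟨a1, a2, a3, a4⟩ := B.complete (lqW w) (lqW_wf w) (lqW_complete hw)
    exact ⟨_, _, _, rfl, a1, a2, a3, a4⟩
  · rintro ⟨P, Q, k, hPQ, -, -, -, hC⟩
    obtain ⟨h3, h4, h5⟩ := ctWord_inj hPQ
    rw [← h3, ← h4, ← h5] at hC
    exact lqW_sound (B.sound (lqW w) (lqW_wf w) hC)

end Pool.Agent.Lib.MP_6ff0c5_lc.PTA
end

section

/-!
The walls of the polygons.

Plan. Let `P = symPoly (outerL a b) (holesL a b) pos`, `n = num (allL a b)`; `IsWall P` does not depend on `pos`, so take `pos = nomP`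
and the data `D = (ldataP a b).sdata.data`. For antisymmetric `f : ℕ → ℕ → ℤ`, with `f' x y = f (n x) (n y)`:
`lsum f ((wallL a b).map fun e => (n e.1, n e.2)) = wallSum f' a b = cs f' outer - ∑ cs f' hole`
`= lsum f (cycEdges P.outer) - (P.holes.map fun c => lsum f (cycEdges c)).sum` (`lsum_wallL`, `wallSum_eq`,
`lsum_cycEdges_map`). Take `f = del u v` (K/Cyc.lean, `lsum_del`). If `IsWall P u v` then the right side is `1` (as in
`Data.outer_edge`, `Data.hole_edge` in K/Region.lean: `lsum_del_cyc`, `lsum_del_cyc_of_notMem`, `D.outer_hole`, `D.hole_hole`), so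
`(u, v)` is in the mapped list, and `mem_wallL`. Conversely for a present wall the left side is `≥ 1`: count of `(u, v)` is
`≥ 1`, count of `(v, u)` is `0` by `wall_no_rev` (injectivity of `n` on present labels: `num_inj`, `mem_all_of_pres`,
`pres_wuv`); if `IsWall P u v` is false the right side is `≤ 0` (all counts of `(u, v)` in the outer polygon and of `(v, u)` in
the holes are `0`, see `Data.last` in K/Compat.lean).
-/

set_option autoImplicit false

namespace Pool.Agent.Lib.MP_6ff0c5_lc.C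

open Pool.Agent.Lib.MP_6ff0c5_lc.K
open Filter Topology

/-- the numbered walls -/
private def nwall (a b : ℕ) : List (ℕ × ℕ) := (wallL a b).map fun e => (num (allL a b) e.1, num (allL a b) e.2)

private theorem lsum_nwall (f : ℕ → ℕ → ℤ) (hf : ∀ u v, f v u = -f u v) (a b : ℕ) :
    lsum f (nwall a b) = lsum f (cycEdges (symPoly (outerL a b) (holesL a b) nomP).outer) -
      ((symPoly (outerL a b) (holesL a b) nomP).holes.map fun c => lsum f (cycEdges c)).sum := by
  have h1 : lsum f (nwall a b) = lsum (fun x y => f (num (allL a b) x) (num (allL a b) y)) (wallL a b) := by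
    unfold lsum nwall
    rw [List.map_map]
    rfl
  rw [h1, lsum_wallL, wallSum_eq (fun x y => hf _ _)]
  have h2 : (symPoly (outerL a b) (holesL a b) nomP).outer = (outerL a b).map (num (allL a b)) := rfl
  have h3 : (symPoly (outerL a b) (holesL a b) nomP).holes =
      (holesL a b).map fun c => c.map (num (allL a b)) := rfl
  rw [h2, h3, lsum_cycEdges_map, List.map_map]
  congr 2
  refine List.map_congr_left fun c _ => ?_
  simp only [Function.comp]
  rw [lsum_cycEdges_map]

private theorem mem_nwall {a b u v : ℕ} : (u, v) ∈ nwall a b ↔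
    ∃ w i j, WP (a + 1) (b + 1) w i j ∧ u = num (allL a b) (wu w i j) ∧ v = num (allL a b) (wv w i j) := by
  unfold nwall
  rw [List.mem_map]
  constructor
  · rintro ⟨⟨x, y⟩, h1, h2⟩
    obtain ⟨w, i, j, h3, rfl, rfl⟩ := mem_wallL.1 h1
    obtain ⟨h4, h5⟩ := Prod.mk.inj h2
    exact ⟨w, i, j, h3, h4.symm, h5.symm⟩
  · rintro ⟨w, i, j, h, rfl, rfl⟩
    exact ⟨(wu w i j, wv w i j), mem_wallL.2 ⟨w, i, j, h, rfl, rfl⟩, rfl⟩

private theorem rev_notMem_nwall {a b u v : ℕ} (h : (u, v) ∈ nwall a b) : (v, u) ∉ nwall a b := by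
  intro h'
  obtain ⟨w, i, j, h1, hu, hv⟩ := mem_nwall.1 h
  obtain ⟨w', i', j', h1', hv', hu'⟩ := mem_nwall.1 h'
  have p := pres_wuv h1
  have p' := pres_wuv h1'
  have e1 : wu w' i' j' = wv w i j :=
    num_inj (mem_all_of_pres p'.1) (by rw [← hv', ← hv])
  have e2 : wv w' i' j' = wu w i j :=
    num_inj (mem_all_of_pres p'.2) (by rw [← hu', ← hu])
  exact wall_no_rev h1.1 h1'.1 ⟨e1, e2⟩

private theorem isWall_iff_nom (a b : ℕ) (u v : ℕ) :
    IsWall (symPoly (outerL a b) (holesL a b) nomP) u v ↔ (u, v) ∈ nwall a b := by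
  have D := (ldataP a b).sdata.data
  have key := lsum_nwall (del u v) (fun x y => del_anti u v x y) a b
  rw [lsum_del] at key
  set P := symPoly (outerL a b) (holesL a b) nomP with hP
  constructor
  · intro h
    have h1 : lsum (del u v) (cycEdges P.outer) -
        (P.holes.map fun c => lsum (del u v) (cycEdges c)).sum = 1 := by
      rcases h with h | ⟨k, h⟩
      · have ha := (mem_of_mem_cycEdges h).1
        have e1 := lsum_del_cyc (D.nodup_cyc (outer_mem P)) (D.three _ (outer_mem P)) h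
        have e2 : (P.holes.map fun c => lsum (del u v) (cycEdges c)).sum = 0 := by
          rw [sum_list_get]
          exact Finset.sum_eq_zero fun h' _ => lsum_del_cyc_of_notMem (D.outer_hole h' ha)
        rw [e1, e2]
        norm_num
      · have ha := (mem_of_mem_cycEdges h).2
        have e1 := lsum_del_cyc (D.nodup_cyc (hole_mem P k)) (D.three _ (hole_mem P k)) h
        have e1' : lsum (del u v) (cycEdges (P.holes.get k)) = -1 := by
          rw [lsum_del] at e1 ⊢
          linarith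
        have e2 : (P.holes.map fun c => lsum (del u v) (cycEdges c)).sum = -1 := by
          rw [sum_list_get, Finset.sum_eq_single k, e1']
          · exact fun h' _ hne => lsum_del_cyc_of_notMem (D.hole_hole hne.symm ha)
          · exact fun hn => absurd (Finset.mem_univ _) hn
        have e0 : lsum (del u v) (cycEdges P.outer) = 0 :=
          lsum_del_cyc_of_notMem fun h' => D.outer_hole k h' ha
        rw [e0, e2]
        norm_num
    rw [h1] at key
    by_contra hno
    rw [List.count_eq_zero_of_not_mem hno] at key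
    have := Int.natCast_nonneg ((nwall a b).count (v, u))
    push_cast at key
    linarith
  · intro h
    have h1 : 1 ≤ (nwall a b).count (u, v) := List.count_pos_iff.2 h
    rw [List.count_eq_zero_of_not_mem (rev_notMem_nwall h)] at key
    by_contra hno
    have hc1 : (u, v) ∉ cycEdges P.outer := fun h' => hno (Or.inl h')
    have hc2 : ∀ k : Fin P.holes.length, (v, u) ∉ cycEdges (P.holes.get k) := fun k h' => hno (Or.inr ⟨k, h'⟩)
    have h2 : lsum (del u v) (cycEdges P.outer) ≤ 0 := by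
      rw [lsum_del, List.count_eq_zero_of_not_mem hc1]
      push_cast
      linarith [Int.natCast_nonneg ((cycEdges P.outer).count (v, u))]
    have h3 : 0 ≤ (P.holes.map fun c => lsum (del u v) (cycEdges c)).sum := by
      rw [sum_list_get]
      refine Finset.sum_nonneg fun h _ => ?_
      rw [lsum_del, List.count_eq_zero_of_not_mem (hc2 h)]
      push_cast
      linarith [Int.natCast_nonneg ((cycEdges (P.holes.get h)).count (u, v))]
    have h4 : (1 : ℤ) ≤ ((nwall a b).count (u, v) : ℤ) := by exact_mod_cast h1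
    push_cast at key
    linarith

theorem isWall_iff (a b : ℕ) (pos : Vx → ℤ × ℤ) (u v : ℕ) :
    IsWall (symPoly (outerL a b) (holesL a b) pos) u v ↔
      ∃ w i j, WP (a + 1) (b + 1) w i j ∧ u = num (allL a b) (wu w i j) ∧ v = num (allL a b) (wv w i j) := by
  have h1 : IsWall (symPoly (outerL a b) (holesL a b) pos) u v ↔
      IsWall (symPoly (outerL a b) (holesL a b) nomP) u v := Iff.rfl
  rw [h1, isWall_iff_nom, mem_nwall]

end Pool.Agent.Lib.MP_6ff0c5_lc.C
end

section

/-!
MP_6ff0c5_lc, part B: the network of an LQ instance is computed in polynomial time.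
-/

set_option autoImplicit false
set_option linter.unusedSectionVars false

namespace Pool.Agent.Lib.MP_6ff0c5_lc.PTA

open Pool.Agent.Lib.MP_20e1d9_lc (PT PT.of_eq PT.of_word PT.size)
open Pool.Agent.Lib.MP_20e1d9_lc.PL
open Pool.Agent.Lib.PLib
open Pool.Agent.Lib.MP_9c2350_lc
open Pool.Agent.Lib.MP_6ff0c5_lc
open Pool.Agent.Lib.MP_6ff0c5_lc.LQ

variable {α : Type} [Enc α]

/-- a table of bits -/
def bitTab (l : List ℕ) : List (List Bool) := l.map fun n => (List.range 81).map n.testBit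

theorem tbit_eq {l : List ℕ} (hl : ∀ n ∈ l, n < 2 ^ 81) (id : ℕ) (i k : ℤ) :
    N.tbit l id i k = ((bitTab l).getD id []).getD (9 * k + i).toNat false := by
  unfold N.tbit bitTab
  set m := (9 * k + i).toNat
  by_cases h : id < l.length
  · rw [List.getD_eq_getElem _ _ h, List.getD_eq_getElem (d := []) _ (by simpa using h), List.getElem_map]
    by_cases hm : m < 81
    · rw [List.getD_eq_getElem _ _ (by simpa using hm), List.getElem_map, List.getElem_range]
    · rw [List.getD_eq_default _ _ (by simpa using hm)]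
      have h1 := hl _ (List.getElem_mem h)
      exact Nat.testBit_lt_two_pow (h1.trans_le (Nat.pow_le_pow_right (by norm_num) (by omega)))
  · have e : (l.map fun n => (List.range 81).map n.testBit).getD id [] = [] :=
      List.getD_eq_default _ _ (by simpa using h)
    rw [List.getD_eq_default _ _ (by omega), e]
    simp

theorem masks_lt : ∀ n ∈ N.masks, n < 2 ^ 81 := by decide +kernel

theorem cmasks_lt : ∀ n ∈ N.cmasks, n < 2 ^ 81 := by decide +kernel

theorem tbit_PT {l : List ℕ} (hl : ∀ n ∈ l, n < 2 ^ 81) {t : α → ℕ} {i k : α → ℤ} (ht : PT t) (hi : PT i) (hk : PT k) :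
    PT (fun x => N.tbit l (t x) (i x) (k x)) := by
  have h : PT fun x => ((bitTab l).getD (t x) []).getD (9 * k x + i x).toNat false := by
    fun_prop
  exact h.of_eq fun x => (tbit_eq hl _ _ _).symm

/-- Bits of the masks (finitely many cases: `id < 33`, `0 ≤ i, k < 9`; the list of all triples with a bit `1` is a constant). -/
theorem tbit_masks_PT {id : α → ℕ} {i k : α → ℤ} (h1 : PT id) (h2 : PT i) (h3 : PT k) (hi : ∀ x, 0 ≤ i x ∧ i x < 9)
    (hk : ∀ x, 0 ≤ k x ∧ k x < 9) : PT (fun x => N.tbit N.masks (id x) (i x) (k x)) :=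
  tbit_PT masks_lt h1 h2 h3

theorem tbit_cmasks_PT {id : α → ℕ} {i k : α → ℤ} (h1 : PT id) (h2 : PT i) (h3 : PT k) (hi : ∀ x, 0 ≤ i x ∧ i x < 9)
    (hk : ∀ x, 0 ≤ k x ∧ k x < 9) : PT (fun x => N.tbit N.cmasks (id x) (i x) (k x)) :=
  tbit_PT cmasks_lt h1 h2 h3

/-- the data of a layout in the calculus: gates, `V`, `taps`, `K` -/
abbrev LayC := List Bool × ℕ × List (List ℕ) × ℕ

def toLay (c : LayC) : N.Lay := ⟨c.1, c.2.1, c.2.2.1, c.2.2.2⟩

@[fun_prop]
theorem nlPT {c : α → LayC} (hc : PT c) : PT (fun x => (toLay (c x)).nl) := by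
  unfold N.Lay.nl N.Lay.nvar toLay; fun_prop

@[fun_prop]
theorem nsPT {c : α → LayC} (hc : PT c) : PT (fun x => (toLay (c x)).ns) := by
  unfold N.Lay.ns toLay; fun_prop

@[fun_prop]
theorem srcPT {c : α → LayC} (hc : PT c) : PT (fun x => (toLay (c x)).src) := by
  unfold N.Lay.src toLay; fun_prop

@[fun_prop]
theorem KPT {c : α → LayC} (hc : PT c) : PT (fun x => (toLay (c x)).K) := by
  unfold toLay; fun_prop

@[fun_prop]
theorem tapPT {c : α → LayC} (hc : PT c) {l j : α → ℕ} (hl : PT l) (hj : PT j) :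
    PT (fun x => (toLay (c x)).tap (l x) (j x)) := by
  unfold N.Lay.tap toLay; fun_prop

@[fun_prop]
theorem endedPT {c : α → LayC} (hc : PT c) {l j : α → ℕ} (hl : PT l) (hj : PT j) :
    PT (fun x => (toLay (c x)).ended (l x) (j x)) := by
  unfold N.Lay.ended toLay; fun_prop

@[fun_prop]
theorem ttPT {c : α → LayC} (hc : PT c) {l j : α → ℕ} (hl : PT l) (hj : PT j) :
    PT (fun x => (toLay (c x)).tt (l x) (j x)) := by
  unfold N.Lay.tt; fun_prop

@[fun_prop]
theorem tile_PT {c : α → LayC} {L J : α → ℤ} (hc : PT c) (hL : PT L) (hJ : PT J) :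
    PT (fun x => (toLay (c x)).tile (L x) (J x)) := by
  unfold N.Lay.tile; fun_prop

/-- the layout of an instance -/
def layC (x : (List Bool × ℕ × List Form) × ℕ) : LayC :=
  ((N.layOf (toInst x.1) x.2).G, (N.layOf (toInst x.1) x.2).V, (N.layOf (toInst x.1) x.2).taps, (N.layOf (toInst x.1) x.2).K)

theorem toLay_layC (x : (List Bool × ℕ × List Form) × ℕ) : toLay (layC x) = N.layOf (toInst x.1) x.2 := rfl

@[fun_prop]
theorem formTapsPT {f : α → Form} (hf : PT f) : PT (fun x => N.formTaps (f x)) := by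
  unfold N.formTaps; fun_prop

theorem layC_PT : PT layC := by
  unfold layC N.layOf toInst Inst.N; fun_prop

theorem isize_PT : PT (fun x : (List Bool × ℕ × List Form) × ℕ => N.isize (toInst x.1) x.2) := by
  have h := layC_PT
  have h1 : PT fun x : (List Bool × ℕ × List Form) × ℕ => (toLay (layC x)).ns + (toLay (layC x)).nl + x.2 + 4 := by
    fun_prop
  exact h1

/-- **The active rooms of the network are computed in polynomial time.** -/
theorem netAct_PT {c : α → (List Bool × ℕ × List Form) × ℕ} {x y : α → ℤ} (hc : PT c) (hx : PT x) (hy : PT y) :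
    PT (fun t => (N.net (toInst (c t).1) (c t).2).act (x t) (y t)) := by
  have h1 : PT fun t => N.isize (toInst (c t).1) (c t).2 := isize_PT.comp hc
  have h2 : PT fun t => layC (c t) := layC_PT.comp hc
  have h3 : PT fun t => N.tbit N.masks
      ((toLay (layC (c t))).tile ((x t - 9 * (4 * (N.isize (toInst (c t).1) (c t).2 : ℤ))) / 9)
        ((y t - 9 * (2 * (N.isize (toInst (c t).1) (c t).2 : ℤ))) / 9))
      ((x t - 9 * (4 * (N.isize (toInst (c t).1) (c t).2 : ℤ))) % 9)
      ((y t - 9 * (2 * (N.isize (toInst (c t).1) (c t).2 : ℤ))) % 9) := by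
    refine tbit_PT masks_lt ?_ ?_ ?_ <;> fun_prop
  exact h3

theorem netCup_PT {c : α → (List Bool × ℕ × List Form) × ℕ} {x y : α → ℤ} (hc : PT c) (hx : PT x) (hy : PT y) :
    PT (fun t => (N.net (toInst (c t).1) (c t).2).cup (x t) (y t)) := by
  have h1 : PT fun t => N.isize (toInst (c t).1) (c t).2 := isize_PT.comp hc
  have h2 : PT fun t => layC (c t) := layC_PT.comp hc
  have h3 : PT fun t => N.tbit N.cmasks
      ((toLay (layC (c t))).tile ((x t - 9 * (4 * (N.isize (toInst (c t).1) (c t).2 : ℤ))) / 9)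
        ((y t - 9 * (2 * (N.isize (toInst (c t).1) (c t).2 : ℤ))) / 9))
      ((x t - 9 * (4 * (N.isize (toInst (c t).1) (c t).2 : ℤ))) % 9)
      ((y t - 9 * (2 * (N.isize (toInst (c t).1) (c t).2 : ℤ))) % 9) := by
    refine tbit_PT cmasks_lt ?_ ?_ ?_ <;> fun_prop
  exact h3

end Pool.Agent.Lib.MP_6ff0c5_lc.PTA
end

section

/-!
MP_6ff0c5_lc, part C: the positions are computable in polynomial time.
-/

set_option autoImplicit false
set_option linter.unusedSectionVars false

namespace Pool.Agent.Lib.MP_6ff0c5_lc.PTA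

open Pool.Agent.Lib.MP_20e1d9_lc (PT PT.of_eq PT.of_word PT.size)
open Pool.Agent.Lib.MP_20e1d9_lc.PL
open Pool.Agent.Lib.PLib
open Pool.Agent.Lib.MP_9c2350_lc
open Pool.Agent.Lib.MP_6ff0c5_lc
open Pool.Agent.Lib.MP_6ff0c5_lc.C

variable {α : Type} [Enc α]

@[fun_prop]
theorem nomPPT {v : α → Vx} (hv : PT v) : PT (fun x => nomP (v x)) := by
  have h : PT fun x : α => ((tabP.getD (v x).1 (0, 0)).1 + 200 * (v x).2.1, (tabP.getD (v x).1 (0, 0)).2 + 200 * (v x).2.2) := by
    fun_prop
  exact h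

@[fun_prop]
theorem nomQPT {v : α → Vx} (hv : PT v) : PT (fun x => nomQ (v x)) := by
  have h : PT fun x : α => ((tabQ.getD (v x).1 (0, 0)).1 - 214500 * (v x).2.1 - 429000 * (v x).2.2,
    (tabQ.getD (v x).1 (0, 0)).2 + 214500 * (v x).2.1 - 868500 * (v x).2.2) := by
    fun_prop
  exact h

/-- the displacements in terms of the activities: `a2 = act x y`, `a1 = act (x+1) y`, `a3 = act (x+1) (y+1)`, `c = cup x y` -/
def dispB (k : ℕ) (a1 a2 a3 c : Bool) : ℤ × ℤ :=
  if k = 6 then (if (!a1 && a2 && a3 && c) || (!a1 && !a2 && !a3) then (0, 1) else (0, 0))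
  else if k = 8 then (if (!a1 && a2 && a3 && c) then (0, 0) else (-1, 0))
  else if k = 10 then (if (a1 && !(a2 || a3)) then (0, 0) else (-1, 0))
  else if k = 7 then (if (!a1 && !(a2 && a3 && c) && (a2 || a3)) then (0, 0) else (1, 0))
  else if k = 2 then (if a2 then (0, 0) else (0, 1))
  else if k = 5 then (if a2 then (0, 0) else (1, 0))
  else (0, 0)

theorem dispQ_eq (N : N.Net) (v : Vx) : dispQ N v = dispB v.1 (N.act (v.2.1 + v.2.2 + 1) v.2.2)
    (N.act (v.2.1 + v.2.2) v.2.2) (N.act (v.2.1 + v.2.2 + 1) (v.2.2 + 1)) (N.cup (v.2.1 + v.2.2) v.2.2) := by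
  unfold dispQ dispB MP_6ff0c5_lc.N.Net.bt
  cases N.act (v.2.1 + v.2.2 + 1) v.2.2 <;> cases N.act (v.2.1 + v.2.2) v.2.2 <;>
    cases N.act (v.2.1 + v.2.2 + 1) (v.2.2 + 1) <;> cases N.cup (v.2.1 + v.2.2) v.2.2 <;> simp

/-- the positions in the second drawing -/
theorem iposQPT {N : α → N.Net} {M : α → ℤ} {v : α → Vx} (hact : PT fun y : α × ℤ × ℤ => (N y.1).act y.2.1 y.2.2)
    (hcup : PT fun y : α × ℤ × ℤ => (N y.1).cup y.2.1 y.2.2) (hM : PT M) (hv : PT v) :
    PT (fun x => iposQ (M x) (N x) (v x)) := by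
  have a1 : PT fun x => (N x).act ((v x).2.1 + (v x).2.2 + 1) (v x).2.2 :=
    hact.comp (g := fun x => (x, (v x).2.1 + (v x).2.2 + 1, (v x).2.2)) (by fun_prop)
  have a2 : PT fun x => (N x).act ((v x).2.1 + (v x).2.2) (v x).2.2 :=
    hact.comp (g := fun x => (x, (v x).2.1 + (v x).2.2, (v x).2.2)) (by fun_prop)
  have a3 : PT fun x => (N x).act ((v x).2.1 + (v x).2.2 + 1) ((v x).2.2 + 1) :=
    hact.comp (g := fun x => (x, (v x).2.1 + (v x).2.2 + 1, (v x).2.2 + 1)) (by fun_prop)
  have c : PT fun x => (N x).cup ((v x).2.1 + (v x).2.2) (v x).2.2 :=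
    hcup.comp (g := fun x => (x, (v x).2.1 + (v x).2.2, (v x).2.2)) (by fun_prop)
  have hd : PT fun x => dispB (v x).1 ((N x).act ((v x).2.1 + (v x).2.2 + 1) (v x).2.2)
    ((N x).act ((v x).2.1 + (v x).2.2) (v x).2.2) ((N x).act ((v x).2.1 + (v x).2.2 + 1) ((v x).2.2 + 1))
    ((N x).cup ((v x).2.1 + (v x).2.2) (v x).2.2) := by
    unfold dispB
    fun_prop
  have hd' : PT fun x => dispQ (N x) (v x) := hd.of_eq fun x => (dispQ_eq _ _).symm
  have h : PT fun x => ((M x * (nomQ (v x)).1 + (dispQ (N x) (v x)).1, M x * (nomQ (v x)).2 + (dispQ (N x) (v x)).2) : ℤ × ℤ) := by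
    fun_prop
  exact h

end Pool.Agent.Lib.MP_6ff0c5_lc.PTA
end

section

/-!
The two polygons with holes of the layout (`n1 = a + 1`, `n2 = b + 1`).
-/

set_option autoImplicit false

namespace Pool.Agent.Lib.MP_6ff0c5_lc.C

open Pool.Agent.Lib.MP_6ff0c5_lc.PTA (IPoly mkPoly)

/-- the data of `symPoly` with integer coordinates -/
def symI (outer : List Vx) (holes : List (List Vx)) (pos : Vx → ℤ × ℤ) : IPoly :=
  (outer.map (num (outer ++ holes.flatten)), holes.map (fun c => c.map (num (outer ++ holes.flatten))),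
    (outer ++ holes.flatten).map pos)

theorem mkPoly_symI (outer : List Vx) (holes : List (List Vx)) (pos : Vx → ℤ × ℤ) :
    mkPoly (symI outer holes pos) = symPoly outer holes pos := rfl

/-- the first polygon -/
def layP (n1 n2 : ℕ) : IPoly := symI (outerL (n1 - 1) (n2 - 1)) (holesL (n1 - 1) (n2 - 1)) nomP

/-- the second polygon -/
def layQ (M : ℤ) (N : N.Net) (n1 n2 : ℕ) : IPoly :=
  symI (outerL (n1 - 1) (n2 - 1)) (holesL (n1 - 1) (n2 - 1)) (iposQ M N)

/-- the numbers of the vertices -/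
def layNum (n1 n2 : ℕ) (x : Vx) : ℕ := num (allL (n1 - 1) (n2 - 1)) x

end Pool.Agent.Lib.MP_6ff0c5_lc.C
end

section

/-!
MP_6ff0c5_lc, part C: the two polygons are computable in polynomial time.
-/

set_option autoImplicit false
set_option linter.unusedSectionVars false

namespace Pool.Agent.Lib.MP_6ff0c5_lc.PTA

open Pool.Agent.Lib.MP_20e1d9_lc (PT PT.of_eq PT.of_word PT.size)
open Pool.Agent.Lib.MP_20e1d9_lc.PL
open Pool.Agent.Lib.PLib
open Pool.Agent.Lib.MP_9c2350_lc
open Pool.Agent.Lib.MP_6ff0c5_lc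
open Pool.Agent.Lib.MP_6ff0c5_lc.C

variable {α : Type} [Enc α]

instance encIInt : EncI ℤ := ⟨fun a b h => by
  have h' : (Enc.enc (a.natAbs, decide (a < 0)) : Dat) = Enc.enc (b.natAbs, decide (b < 0)) := h
  have h2 := EncI.inj h'
  rw [Prod.mk.injEq, decide_eq_decide] at h2
  omega⟩

/-- the first polygon (`a + 1` times `b + 1` cells) -/
def layP (a b : ℕ) : IPoly :=
  ((outerL a b).map (num (outerL a b ++ (holesL a b).flatten)),
    (holesL a b).map (fun c => c.map (num (outerL a b ++ (holesL a b).flatten))),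
    (outerL a b ++ (holesL a b).flatten).map nomP)

/-- the second polygon -/
def layQ (M : ℤ) (N : N.Net) (a b : ℕ) : IPoly :=
  ((outerL a b).map (num (outerL a b ++ (holesL a b).flatten)),
    (holesL a b).map (fun c => c.map (num (outerL a b ++ (holesL a b).flatten))),
    (outerL a b ++ (holesL a b).flatten).map (iposQ M N))

theorem mkPoly_layP (a b : ℕ) : mkPoly (layP a b) = symPoly (outerL a b) (holesL a b) nomP := rfl

theorem mkPoly_layQ (M : ℤ) (N : N.Net) (a b : ℕ) :
    mkPoly (layQ M N a b) = symPoly (outerL a b) (holesL a b) (iposQ M N) := rfl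

@[fun_prop]
theorem blkPT {l : α → List Vx} {i j : α → ℤ} (hl : PT l) (hi : PT i) (hj : PT j) :
    PT (fun x => blk (l x) (i x) (j x)) := by
  have h : PT fun x => (l x).map fun v => ((v.1, v.2.1 + i x, v.2.2 + j x) : Vx) := by fun_prop
  exact h

@[fun_prop]
theorem outerLPT {a b : α → ℕ} (ha : PT a) (hb : PT b) : PT (fun x => outerL (a x) (b x)) := by
  unfold outerL; fun_prop

@[fun_prop]
theorem holesLPT {a b : α → ℕ} (ha : PT a) (hb : PT b) : PT (fun x => holesL (a x) (b x)) := by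
  unfold holesL holeIdx; fun_prop

@[fun_prop]
theorem numPT {l : α → List Vx} {v : α → Vx} (hl : PT l) (hv : PT v) : PT (fun x => num (l x) (v x)) := by
  unfold num; fun_prop

theorem layPPT : PT fun x : ℕ × ℕ => layP (x.1 - 1) (x.2 - 1) := by
  unfold layP
  fun_prop

theorem layQPT {M : α → ℤ} {N : α → N.Net} {n1 n2 : α → ℕ} (hM : PT M) (h1 : PT n1) (h2 : PT n2)
    (hact : PT fun y : α × ℤ × ℤ => (N y.1).act y.2.1 y.2.2) (hcup : PT fun y : α × ℤ × ℤ => (N y.1).cup y.2.1 y.2.2) :
    PT fun x => layQ (M x) (N x) (n1 x - 1) (n2 x - 1) := by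
  have h3 : PT fun y : α × Vx => iposQ (M y.1) (N y.1) y.2 := by
    refine iposQPT (N := fun y : α × Vx => N y.1) (M := fun y : α × Vx => M y.1) (v := fun y : α × Vx => y.2) ?_ ?_ ?_ ?_
    · exact hact.comp (g := fun y : (α × Vx) × ℤ × ℤ => (y.1.1, y.2.1, y.2.2)) (by fun_prop)
    · exact hcup.comp (g := fun y : (α × Vx) × ℤ × ℤ => (y.1.1, y.2.1, y.2.2)) (by fun_prop)
    · exact hM.comp (g := fun y : α × Vx => y.1) (by fun_prop)
    · fun_prop
  have h4 : PT fun x => (outerL (n1 x - 1) (n2 x - 1) ++ (holesL (n1 x - 1) (n2 x - 1)).flatten).map (iposQ (M x) (N x)) :=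
    map (f := fun (x : α) (v : Vx) => iposQ (M x) (N x) v) (by fun_prop) h3
  unfold layQ
  have h5 : PT fun x => (outerL (n1 x - 1) (n2 x - 1)).map
      (num (outerL (n1 x - 1) (n2 x - 1) ++ (holesL (n1 x - 1) (n2 x - 1)).flatten)) := by fun_prop
  have h6 : PT fun x => (holesL (n1 x - 1) (n2 x - 1)).map (fun c => c.map
      (num (outerL (n1 x - 1) (n2 x - 1) ++ (holesL (n1 x - 1) (n2 x - 1)).flatten))) := by fun_prop
  exact pair h5 (pair h6 h4)

end Pool.Agent.Lib.MP_6ff0c5_lc.PTA
end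

section

/-!
Completeness of the layout and the soundness interface `Comp`.
-/

set_option autoImplicit false

namespace Pool.Agent.Lib.MP_6ff0c5_lc.C

open Pool.Agent.Lib.MP_6ff0c5_lc.K
open Pool.Agent.Lib.MP_6ff0c5_lc.PTA (IPoly mkPoly)

theorem n_lay (a b : ℕ) (pos : Vx → ℤ × ℤ) : (symPoly (outerL a b) (holesL a b) pos).n = (allL a b).length :=
  n_symPoly _ _ _

theorem lay_complete {M : ℤ} {a b : ℕ} (hM : 1000000000 ≤ M) (N : N.Net) {A B : ℤ → ℤ → Pt}
    (h : TPos (a + 1) (b + 1) (posQ M N) A B) :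
    (symPoly (outerL a b) (holesL a b) nomP).Valid ∧ (symPoly (outerL a b) (holesL a b) (iposQ M N)).Valid ∧
      (symPoly (outerL a b) (holesL a b) nomP).n = (symPoly (outerL a b) (holesL a b) (iposQ M N)).n ∧
      CompatibleWith (symPoly (outerL a b) (holesL a b) nomP) (symPoly (outerL a b) (holesL a b) (iposQ M N))
        (2 * (a + 1) * (b + 1)) := by
  have D := (ldataP a b).sdata.data
  have D' := (ldataS hM N h).sdata.data
  have hn : (symPoly (outerL a b) (holesL a b) nomP).n = (symPoly (outerL a b) (holesL a b) (iposQ M N)).n := by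
    rw [n_lay, n_lay]
  obtain ⟨h1, h2, h3⟩ := compatible D D' hn (k := 2 * (a + 1) * (b + 1)) (le_of_eq (length_st a b))
  exact ⟨h1, h2, hn, h3⟩

theorem four_le (a b : ℕ) (pos : Vx → ℤ × ℤ) : ∀ c ∈ (symPoly (outerL a b) (holesL a b) pos).cycles, 4 ≤ c.length := by
  intro c hc
  rw [cycles_symPoly] at hc
  obtain ⟨c', hc', rfl⟩ := List.mem_map.1 hc
  rw [List.length_map]
  exact three_le a b c' hc'

theorem lay_comp {M : ℤ} {a b : ℕ} (hM : 1000000000 ≤ M) (N : N.Net)
    (h : CompatibleWith (symPoly (outerL a b) (holesL a b) nomP) (symPoly (outerL a b) (holesL a b) (iposQ M N))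
      (2 * (a + 1) * (b + 1))) :
    ∃ s p q T, Comp (symPoly (outerL a b) (holesL a b) nomP) (symPoly (outerL a b) (holesL a b) (iposQ M N))
      (2 * (a + 1) * (b + 1))
      (3 * ((symPoly (outerL a b) (holesL a b) nomP).n + 2 * nd (a + 1) (b + 1))) s p q T := by
  have D := (ldataP a b).sdata.data
  have D' := (ldataR (a := a) (b := b) hM N).sdata.data
  have hn : (symPoly (outerL a b) (holesL a b) nomP).n = (symPoly (outerL a b) (holesL a b) (iposQ M N)).n := by
    rw [n_lay, n_lay]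
  rw [length_st a b] at D
  obtain ⟨s, p, q, T, hT⟩ := exists_comp D D' hn (four_le a b nomP) (four_le a b (iposQ M N)) (fun u v hw => hw) h
  refine ⟨s, p, q, T, ?_⟩
  have hc : 3 * Fintype.card (Fin (TS a b).length) =
      3 * ((symPoly (outerL a b) (holesL a b) nomP).n + 2 * nd (a + 1) (b + 1)) := by
    rw [Fintype.card_fin, length_TS, n_lay]
  rw [← hc]
  exact hT

end Pool.Agent.Lib.MP_6ff0c5_lc.C
end

section

/-!
MP_6ff0c5_lc, part C: the facts about the two polygons of a patch.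
-/

set_option autoImplicit false

namespace Pool.Agent.Lib.MP_6ff0c5_lc.C

open Pool.Agent.Lib.MP_6ff0c5_lc.K
open N (Net)
open Filter Topology

/-! ### Translations -/

theorem orient_add (p q r c : Pt) : orient (p + c) (q + c) (r + c) = orient p q r := by
  unfold orient; simp only [Prod.fst_add, Prod.snd_add]; ring

theorem closedTri_add {r r' : Vx → Pt} {t t' : Vx × Vx × Vx} {c : Pt} (h1 : r' t'.1 = r t.1 + c)
    (h2 : r' t'.2.1 = r t.2.1 + c) (h3 : r' t'.2.2 = r t.2.2 + c) {x : Pt} :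
    x + c ∈ ClosedTri r' t' ↔ x ∈ ClosedTri r t := by
  unfold ClosedTri
  simp only [Set.mem_ofPred_eq, h1, h2, h3, orient_add]

theorem otri_add {r r' : Vx → Pt} {t t' : Vx × Vx × Vx} {c : Pt} (h1 : r' t'.1 = r t.1 + c)
    (h2 : r' t'.2.1 = r t.2.1 + c) (h3 : r' t'.2.2 = r t.2.2 + c) : otri r' t' = otri r t := by
  unfold otri
  rw [h1, h2, h3, orient_add]

theorem segment_add {u v c x : Pt} (h : x ∈ segment ℝ u v) : x + c ∈ segment ℝ (u + c) (v + c) := by
  obtain ⟨s, t, hs, ht, hst, rfl⟩ := h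
  refine ⟨s, t, hs, ht, hst, ?_⟩
  have : c = s • c + t • c := by rw [← add_smul, hst, one_smul]
  conv_rhs => rw [this]
  simp only [smul_add]
  abel

theorem interior_add {R R' : Set Pt} {c x : Pt} (h : ∀ y ∈ R, y + c ∈ R') (hx : x ∈ interior R) : x + c ∈ interior R' := by
  rw [mem_interior_iff_mem_nhds] at hx ⊢
  have hcont : Continuous fun y : Pt => y - c := by fun_prop
  have h1 : (fun y : Pt => y - c) ⁻¹' R ∈ 𝓝 (x + c) := by
    apply hcont.continuousAt.preimage_mem_nhds
    rw [add_sub_cancel_right]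
    exact hx
  refine Filter.mem_of_superset h1 fun y hy => ?_
  have := h _ hy
  rwa [sub_add_cancel] at this

theorem posP_sh' (v : Vx) (s t : ℤ) : posP (sh v s t) = posP v + ((200 * s : ℝ), (200 * t : ℝ)) := by
  unfold posP toPt nomP sh
  ext
  · simp only [Prod.fst_add]; push_cast; ring
  · simp only [Prod.snd_add]; push_cast; ring

/-- the translated network -/
def shN2 (N : Net) (s t : ℤ) : Net := ⟨fun x y => N.act (x - s - t) (y - t), fun x y => N.cup (x - s - t) (y - t)⟩

theorem act_shN2 (N : Net) (s t x y : ℤ) : (shN2 N s t).act x y = N.act (x - s - t) (y - t) := rfl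

theorem cup_shN2 (N : Net) (s t x y : ℤ) : (shN2 N s t).cup x y = N.cup (x - s - t) (y - t) := rfl

theorem bt_shN2 (N : Net) (s t x y : ℤ) : (shN2 N s t).bt x y = N.bt (x - s - t) (y - t) := by
  unfold Net.bt
  rw [act_shN2, act_shN2, act_shN2, cup_shN2, show x + 1 - s - t = x - s - t + 1 by ring,
    show y + 1 - t = y - t + 1 by ring]

theorem dispQ_shN2 (N : Net) (s t : ℤ) (v : Vx) : dispQ (shN2 N s t) (sh v s t) = dispQ N v := by
  have e1 : (sh v s t).1 = v.1 := rfl
  have e2 : (sh v s t).2.1 + (sh v s t).2.2 - s - t = v.2.1 + v.2.2 := by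
    unfold sh; simp only; ring
  have e3 : (sh v s t).2.2 - t = v.2.2 := by
    unfold sh; simp only; ring
  have e4 : (shN2 N s t).act ((sh v s t).2.1 + (sh v s t).2.2) (sh v s t).2.2 = N.act (v.2.1 + v.2.2) v.2.2 := by
    show N.act _ _ = _
    rw [e2, e3]
  unfold dispQ
  rw [bt_shN2, e4, e1, e2, e3]

/-- the translation vector of the second drawing -/
noncomputable def tv (M s t : ℤ) : Pt := ((M : ℝ) * (-214500 * s - 429000 * t), (M : ℝ) * (214500 * s - 868500 * t))

theorem posQ_shN2 (M : ℤ) (N : Net) (s t : ℤ) (v : Vx) : posQ M (shN2 N s t) (sh v s t) = posQ M N v + tv M s t := by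
  unfold posQ iposQ
  rw [dispQ_shN2]
  unfold toPt tv nomQ sh
  ext
  · simp only [Prod.fst_add]
    push_cast
    ring
  · simp only [Prod.snd_add]
    push_cast
    ring

theorem wu_sh2 (w : ℕ) (i j s t : ℤ) : wu w (s + i) (t + j) = sh (wu w i j) s t := by
  unfold wu; rw [sh_comp]

theorem wv_sh2 (w : ℕ) (i j s t : ℤ) : wv w (s + i) (t + j) = sh (wv w i j) s t := by
  unfold wv; rw [sh_comp]

/-! ### The regions -/

theorem regP {a b : ℕ} {x : Pt} : x ∈ (symPoly (outerL a b) (holesL a b) nomP).region ↔ ∃ t ∈ TS a b, x ∈ ClosedTri posP t := by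
  rw [holesL_eq, (ldataP a b).region]
  refine exists_congr fun t => and_congr_right fun ht => ?_
  have h : ∀ y, IsVert t y → rP a b y = posP y := by
    intro y hy
    rcases List.mem_append.1 (mem_TS ht hy) with h | h
    · exact rP_of_lt (all_lt h)
    · exact rP_of_lt (st_lt h)
  unfold ClosedTri
  rw [h _ (Or.inl rfl), h _ (Or.inr (Or.inl rfl)), h _ (Or.inr (Or.inr rfl))]

theorem regQ {M : ℤ} (hM : 1000000000 ≤ M) (N : Net) {a b : ℕ} {x : Pt} :
    x ∈ (symPoly (outerL a b) (holesL a b) (iposQ M N)).region ↔ ∃ t ∈ TR a b, x ∈ ClosedTri (posQ M N) t := by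
  rw [holesL_eq, (ldataR hM N).region]
  refine exists_congr fun t => and_congr_right fun ht => ?_
  have h : ∀ y, IsVert t y → rF M N a b y = posQ M N y := fun y hy => rF_of_lt (all_lt (mem_TR ht hy))
  unfold ClosedTri
  rw [h _ (Or.inl rfl), h _ (Or.inr (Or.inl rfl)), h _ (Or.inr (Or.inr rfl))]

theorem mem_fam2_sh {tab : List (Vx × Vx × Vx)} {i j : ℤ} {tt : Vx × Vx × Vx} (h : tt ∈ tblk tab i j) :
    ∃ t0 ∈ tab, tt = mapT (fun v => sh v i j) t0 := by
  obtain ⟨t, ht, rfl⟩ := List.mem_map.1 h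
  exact ⟨t, ht, rfl⟩

/-- every cell pattern is positive in the first drawing -/
theorem posP_tblk {i j : ℤ} {tab : List (Vx × Vx × Vx)} (htab : tab ⊆ cellS ++ (door2 ++ door3)) {tt : Vx × Vx × Vx}
    (h : tt ∈ tblk tab i j) : 0 ≤ otri posP tt := by
  have h0 : ∀ t ∈ cellS ++ (door2 ++ door3), 0 < iori (nomP t.1) (nomP t.2.1) (nomP t.2.2) := by decide +kernel
  exact (pos_blkP (fun t ht => h0 t (htab ht)) h).le

theorem P_incl {a b s t a' b' : ℕ} (h1 : a + s ≤ a') (h2 : b + t ≤ b') {x : Pt}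
    (hx : x ∈ (symPoly (outerL a b) (holesL a b) nomP).region) :
    x + ((200 * s : ℝ), (200 * t : ℝ)) ∈ (symPoly (outerL a' b') (holesL a' b') nomP).region := by
  rw [regP] at hx ⊢
  obtain ⟨tt, htt, hx⟩ := hx
  have hsh : ∀ v : Vx, posP (sh v (s : ℤ) (t : ℤ)) = posP v + ((200 * s : ℝ), (200 * t : ℝ)) := by
    intro v; rw [posP_sh']; push_cast; rfl
  refine LP.incl (ρ := posP) h1 h2 (TL := TS a' b') (TM := TS a b) (fun f _ => rfl) (fun f _ => rfl)
    (fun tt h => pos_TSP h) (fun tt h => ?_) (fun i j _ tt h => posP_tblk (by simp) h)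
    (fun i j _ tt h => posP_tblk (by simp) h) (fun i j _ tt h => posP_tblk (by simp) h) htt ?_
  · rw [otri_add (r := posP) (t := tt) (hsh _) (hsh _) (hsh _)]
    exact pos_TSP h
  · rw [closedTri_add (r := posP) (t := tt) (hsh _) (hsh _) (hsh _)]
    exact hx

/-- all active rooms are inside of the patch -/
def InB (N : Net) (a b : ℕ) : Prop :=
  ∀ x y, N.act x y = true → 2 ≤ x - y ∧ x - y ≤ a ∧ 2 ≤ y ∧ y ≤ b

theorem Q_incl {M : ℤ} (hM : 1000000000 ≤ M) {N : Net} {a b s t a' b' : ℕ} (hN : InB N a b) (h1 : a + s ≤ a')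
    (h2 : b + t ≤ b') {x : Pt} (hx : x ∈ (symPoly (outerL a b) (holesL a b) (iposQ M N)).region) :
    x + tv M s t ∈ (symPoly (outerL a' b') (holesL a' b') (iposQ M (shN2 N s t))).region := by
  rw [regQ hM] at hx ⊢
  obtain ⟨tt, htt, hx⟩ := hx
  have hsh : ∀ v : Vx, posQ M (shN2 N s t) (sh v (s : ℤ) (t : ℤ)) = posQ M N v + tv M s t := fun v => posQ_shN2 M N s t v
  have hact : ∀ i j : ℤ, (shN2 N s t).act (i + j) j = true → 2 ≤ i - s ∧ i - s ≤ a ∧ 2 ≤ j - t ∧ j - t ≤ b := by
    intro i j h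
    have h3 := hN _ _ h
    obtain ⟨g1, g2, g3, g4⟩ := h3
    exact ⟨by linarith, by linarith, g3, g4⟩
  have hact0 : ∀ i j : ℤ, ¬ (2 ≤ i - s ∧ i - s ≤ a ∧ 2 ≤ j - t ∧ j - t ≤ b) → (shN2 N s t).act (i + j) j = false := by
    intro i j h
    by_contra h3
    exact h (hact i j (by simpa using h3))
  refine LP.incl (ρ := posQ M (shN2 N s t)) h1 h2 (TL := TR a' b') (TM := TR a b)
    (fun f hf => by rw [sum_TR hf, sum_TS hf]) (fun f hf => by rw [sum_TR hf, sum_TS hf])
    (fun tt h => pos_TRQ hM _ h) (fun tt h => ?_) (fun i j g => ?_) (fun i j g => ?_) (fun i j g => ?_) htt ?_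
  · rw [otri_add (r := posQ M N) (t := tt) (hsh _) (hsh _) (hsh _)]
    exact pos_TRQ hM _ h
  · refine LP.nonneg_cellS hM (hact0 i j ?_) ?_ ?_
    · rintro ⟨g1, g2, g3, g4⟩
      exact g ⟨by omega, by push_cast; omega, by omega, by push_cast; omega⟩
    · rw [show i + j + 1 = (i + 1) + j by ring]
      refine hact0 (i + 1) j ?_
      rintro ⟨g1, g2, g3, g4⟩
      exact g ⟨by omega, by push_cast; omega, by omega, by push_cast; omega⟩
    · rw [show i + j + 1 = i + (j + 1) by ring]
      refine hact0 i (j + 1) ?_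
      rintro ⟨g1, g2, g3, g4⟩
      exact g ⟨by omega, by push_cast; omega, by omega, by push_cast; omega⟩
  · refine LP.nonneg_door2 hM (hact0 i j ?_)
    rintro ⟨g1, g2, g3, g4⟩
    exact g ⟨by omega, by push_cast; omega, by omega, by push_cast; omega⟩
  · refine LP.nonneg_door3 hM (hact0 i j ?_)
    rintro ⟨g1, g2, g3, g4⟩
    exact g ⟨by omega, by push_cast; omega, by omega, by push_cast; omega⟩
  · rw [closedTri_add (r := posQ M N) (t := tt) (hsh _) (hsh _) (hsh _)]
    exact hx

/-! ### The walls of all cells are outside of the interior -/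

theorem pos_wall {pos : Vx → ℤ × ℤ} {a b w : ℕ} {i j : ℤ} (h : WP (a + 1) (b + 1) w i j) :
    (symPoly (outerL a b) (holesL a b) pos).pos (num (allL a b) (wu w i j)) = toPt (pos (wu w i j)) ∧
      (symPoly (outerL a b) (holesL a b) pos).pos (num (allL a b) (wv w i j)) = toPt (pos (wv w i j)) :=
  ⟨pos_symPoly _ _ _ (mem_all_of_pres (pres_wu h)), pos_symPoly _ _ _ (mem_all_of_pres (pres_wv h))⟩

theorem exists_off (i : ℤ) (a : ℕ) : ∃ s a' : ℕ, a + s ≤ a' ∧ 1 ≤ s + i ∧ s + i ≤ ((a' + 1 : ℕ) : ℤ) :=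
  ⟨(1 - i).toNat, a + (1 - i).toNat + i.toNat, by omega, by omega, by push_cast; omega⟩

theorem wp_cellL {n1 n2 w : ℕ} {i j : ℤ} (hw : w < 12) (h1 : 1 ≤ i) (h2 : i ≤ n1) (h3 : 1 ≤ j) (h4 : j ≤ n2) :
    WP n1 n2 w i j := ⟨by omega, h1, h2, h3, h4, by omega, by omega, by omega, by omega⟩

theorem outP (a b : ℕ) (w : ℕ) (i j : ℤ) (hw : w < 12) {x : Pt} (hx : x ∈ segment ℝ (posP (wu w i j)) (posP (wv w i j))) :
    x ∉ interior (symPoly (outerL a b) (holesL a b) nomP).region := by
  obtain ⟨s, a', h1, h2, h3⟩ := exists_off i a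
  obtain ⟨t, b', g1, g2, g3⟩ := exists_off j b
  have hW : WP (a' + 1) (b' + 1) w (s + i) (t + j) := wp_cellL hw h2 h3 g2 g3
  intro hint
  have h5 := interior_add (fun y hy => P_incl h1 g1 hy) hint
  have h6 : IsWall (symPoly (outerL a' b') (holesL a' b') nomP) _ _ :=
    (isWall_iff a' b' nomP _ _).2 ⟨w, s + i, t + j, hW, rfl, rfl⟩
  refine not_interior_of_wall (ldataP a' b').sdata.data h6 ?_ h5
  obtain ⟨e1, e2⟩ := pos_wall (pos := nomP) hW
  have hsh : ∀ v : Vx, toPt (nomP (sh v (s : ℤ) (t : ℤ))) = posP v + ((200 * s : ℝ), (200 * t : ℝ)) := by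
    intro v
    have := posP_sh' v s t
    push_cast at this
    exact this
  have e3 := segment_add (c := ((200 * s : ℝ), (200 * t : ℝ))) hx
  rw [← hsh, ← hsh, ← wu_sh2, ← wv_sh2, ← e1, ← e2] at e3
  exact e3

theorem outQ {M : ℤ} (hM : 1000000000 ≤ M) {N : Net} {a b : ℕ} (hN : InB N a b) (w : ℕ) (i j : ℤ) (hw : w < 12) {x : Pt}
    (hx : x ∈ segment ℝ (posQ M N (wu w i j)) (posQ M N (wv w i j))) :
    x ∉ interior (symPoly (outerL a b) (holesL a b) (iposQ M N)).region := by
  obtain ⟨s, a', h1, h2, h3⟩ := exists_off i a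
  obtain ⟨t, b', g1, g2, g3⟩ := exists_off j b
  have hW : WP (a' + 1) (b' + 1) w (s + i) (t + j) := wp_cellL hw h2 h3 g2 g3
  intro hint
  have h5 := interior_add (fun y hy => Q_incl hM hN h1 g1 hy) hint
  have h6 : IsWall (symPoly (outerL a' b') (holesL a' b') (iposQ M (shN2 N s t))) _ _ :=
    (isWall_iff a' b' _ _ _).2 ⟨w, s + i, t + j, hW, rfl, rfl⟩
  refine not_interior_of_wall (ldataR (a := a') (b := b') hM (shN2 N s t)).sdata.data h6 ?_ h5
  obtain ⟨e1, e2⟩ := pos_wall (pos := iposQ M (shN2 N s t)) hW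
  have hsh : ∀ v : Vx, toPt (iposQ M (shN2 N s t) (sh v (s : ℤ) (t : ℤ))) = posQ M N v + tv M s t :=
    fun v => posQ_shN2 M N s t v
  have e3 := segment_add (c := tv M s t) hx
  rw [← hsh, ← hsh, ← wu_sh2, ← wv_sh2, ← e1, ← e2] at e3
  exact e3

/-! ### The bound -/

theorem abs_le_of_closedTri {r : Vx → Pt} {t : Vx × Vx × Vx} (ht : 0 < otri r t) {B : ℝ}
    (h : ∀ v, IsVert t v → |(r v).1| ≤ B ∧ |(r v).2| ≤ B) {x : Pt} (hx : x ∈ ClosedTri r t) : |x.1| ≤ B ∧ |x.2| ≤ B := by
  rw [closedTri_eq_hull ht] at hx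
  have hc : Convex ℝ {x : Pt | |x.1| ≤ B ∧ |x.2| ≤ B} := by
    intro x hx y hy s t hs ht hst
    simp only [Set.mem_ofPred_eq, abs_le] at hx hy ⊢
    simp only [Prod.fst_add, Prod.snd_add, Prod.smul_fst, Prod.smul_snd, smul_eq_mul]
    have hs' : s = 1 - t := by linarith
    subst hs'
    obtain ⟨⟨x1, x2⟩, x3, x4⟩ := hx
    obtain ⟨⟨y1, y2⟩, y3, y4⟩ := hy
    refine ⟨⟨?_, ?_⟩, ?_, ?_⟩ <;> nlinarith
  refine convexHull_min ?_ hc hx
  intro y hy
  simp only [Set.mem_insert_iff, Set.mem_singleton_iff] at hy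
  rcases hy with rfl | rfl | rfl
  · exact h _ (Or.inl rfl)
  · exact h _ (Or.inr (Or.inl rfl))
  · exact h _ (Or.inr (Or.inr rfl))

theorem bndQ {M : ℤ} (hM : 1000000000 ≤ M) (N : Net) {a b : ℕ} {x : Pt}
    (hx : x ∈ (symPoly (outerL a b) (holesL a b) (iposQ M N)).region) :
    |x.1| ≤ 1500000 * ((a : ℝ) + b + 4) * M ∧ |x.2| ≤ 1500000 * ((a : ℝ) + b + 4) * M := by
  obtain ⟨t, ht, hx⟩ := (regQ hM N).1 hx
  refine abs_le_of_closedTri (pos_TRQ hM N ht) (fun v hv => ?_) hx
  exact bnd_posQ hM N (pres_of_mem_all (mem_TR ht hv))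

/-! ### The patch -/

theorem num_getElem {L : Type} [DecidableEq L] {l : List L} (h : l.Nodup) {v : ℕ} (hv : v < l.length) :
    num l l[v] = v := h.idxOf_getElem v hv

theorem lay_patch {M : ℤ} {a b : ℕ} (hM : 1000000000 * ((a : ℤ) + b + 4) ≤ M) {N : Net} (hN : InB N a b) :
    Patch (a + 1) (b + 1) (symPoly (outerL a b) (holesL a b) nomP) (symPoly (outerL a b) (holesL a b) (iposQ M N))
      (num (allL a b)) M (posQ M N) := by
  have hM' : 1000000000 ≤ M := by omega
  have hnP := n_symPoly (outerL a b) (holesL a b) nomP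
  constructor
  · omega
  · omega
  · intro x y hx hy h
    exact num_inj (mem_all_of_pres hx) h
  · intro x hx
    rw [hnP]
    exact num_lt (mem_all_of_pres hx)
  · intro v hv
    rw [hnP] at hv
    have hv' : v < (allL a b).length := hv
    exact ⟨(allL a b)[v], pres_of_mem_all (List.getElem_mem hv'), num_getElem (nodup_allL a b) hv'⟩
  · intro u v
    exact isWall_iff a b nomP u v
  · intro x hx
    exact pos_symPoly _ _ _ (mem_all_of_pres hx)
  · intro x hx
    exact pos_symPoly _ _ _ (mem_all_of_pres hx)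
  · exact qpos M hM' N
  · push_cast
    have : (1000000000 * ((a : ℝ) + b + 4)) ≤ M := by exact_mod_cast hM
    linarith
  · intro x hx
    have := bndQ hM' N hx
    push_cast
    rw [show (a : ℝ) + 1 + (b + 1) + 2 = a + b + 4 by ring]
    exact this
  · intro w i j hw x hx
    exact outP a b w i j hw hx
  · intro w i j hw x hx
    exact outQ hM' hN w i j hw hx
  · intro w i j hW x hx
    obtain ⟨e1, e2⟩ := pos_wall (pos := nomP) hW
    have h6 : IsWall (symPoly (outerL a b) (holesL a b) nomP) _ _ := (isWall_iff a b nomP _ _).2 ⟨w, i, j, hW, rfl, rfl⟩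
    have := (ldataP a b).sdata.data.wall_left h6 (x := x)
    rw [← holesL_eq, e1, e2] at this
    exact this hx
  · intro w i j hW x hx
    obtain ⟨e1, e2⟩ := pos_wall (pos := iposQ M N) hW
    have h6 : IsWall (symPoly (outerL a b) (holesL a b) (iposQ M N)) _ _ :=
      (isWall_iff a b _ _ _).2 ⟨w, i, j, hW, rfl, rfl⟩
    have := (ldataR (a := a) (b := b) hM' N).sdata.data.wall_left h6 (x := x)
    rw [← holesL_eq, e1, e2] at this
    exact this hx

end Pool.Agent.Lib.MP_6ff0c5_lc.C
end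

section

/-!
MP_6ff0c5_lc: the assembly of the reduction.
-/

set_option autoImplicit false
set_option linter.unusedSectionVars false

namespace Pool.Agent.Lib.MP_6ff0c5_lc.PTA

open Pool.Agent.Lib.MP_20e1d9_lc (PT PT.of_eq PT.of_word PT.size)
open Pool.Agent.Lib.MP_20e1d9_lc.PL
open Pool.Agent.Lib.PLib
open Pool.Agent.Lib.MP_9c2350_lc
open Pool.Agent.Lib.MP_6ff0c5_lc
open Pool.Agent.Lib.MP_6ff0c5_lc.LQ
open Pool.Agent.Lib.MP_6ff0c5_lc.C

/-- All active rooms are inside of the patch. -/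
def InBox (N : N.Net) (n1 n2 : ℕ) : Prop :=
  ∀ x y, N.act x y = true → 2 ≤ x - y ∧ x - y ≤ (n1 : ℤ) - 1 ∧ 2 ≤ y ∧ y ≤ (n2 : ℤ) - 1

/-- What the layout of a patch provides. -/
structure LayI where
  /-- the first polygon -/
  P : ℕ → ℕ → IPoly
  /-- the second polygon -/
  Q : ℤ → N.Net → ℕ → ℕ → IPoly
  /-- the numbers of the vertices -/
  num : ℕ → ℕ → Vx → ℕ
  patch : ∀ (M : ℤ) (N : N.Net) (n1 n2 : ℕ), 1 ≤ n1 → 1 ≤ n2 → 1000000000 * ((n1 : ℤ) + n2 + 2) ≤ M →
    InBox N n1 n2 → Patch n1 n2 (mkPoly (P n1 n2)) (mkPoly (Q M N n1 n2)) (num n1 n2) M (posQ M N)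
  comp : ∀ (M : ℤ) (N : N.Net) (n1 n2 : ℕ), 1 ≤ n1 → 1 ≤ n2 → 1000000000 * ((n1 : ℤ) + n2 + 2) ≤ M →
    InBox N n1 n2 → CompatibleWith (mkPoly (P n1 n2)) (mkPoly (Q M N n1 n2)) (2 * n1 * n2) →
    ∃ s p q T, K.Comp (mkPoly (P n1 n2)) (mkPoly (Q M N n1 n2)) (2 * n1 * n2)
      (3 * ((mkPoly (P n1 n2)).n + 2 * nd n1 n2)) s p q T
  complete : ∀ (M : ℤ) (N : N.Net) (n1 n2 : ℕ) (A B : ℤ → ℤ → Pt), 1 ≤ n1 → 1 ≤ n2 →
    1000000000 * ((n1 : ℤ) + n2 + 2) ≤ M → InBox N n1 n2 → TPos n1 n2 (posQ M N) A B →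
    (mkPoly (P n1 n2)).Valid ∧ (mkPoly (Q M N n1 n2)).Valid ∧ (mkPoly (P n1 n2)).n = (mkPoly (Q M N n1 n2)).n ∧
      CompatibleWith (mkPoly (P n1 n2)) (mkPoly (Q M N n1 n2)) (2 * n1 * n2)
  ptP : PT fun x : ℕ × ℕ => P x.1 x.2
  ptQ : ∀ {α : Type} [Enc α] {M : α → ℤ} {N : α → N.Net} {n1 n2 : α → ℕ}, PT M → PT n1 → PT n2 →
    (PT fun y : α × ℤ × ℤ => (N y.1).act y.2.1 y.2.2) → (PT fun y : α × ℤ × ℤ => (N y.1).cup y.2.1 y.2.2) →
    PT fun x => Q (M x) (N x) (n1 x) (n2 x)

theorem powC {α : Type} [Enc α] {f : α → ℕ} (hf : PT f) (e : ℕ) : PT (fun x => f x ^ e) := by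
  induction e with
  | zero => simpa using const 1
  | succ e ih =>
    have h : PT fun x => f x ^ e * f x := by fun_prop
    exact h.of_eq fun x => (pow_succ _ _).symm

/-- **The reduction.** -/
theorem bcred_of (L : LayI) (hcomp : ∀ (I : Inst) (K : ℕ), I.WF → (∃ d > (0 : ℝ), ∃ z, I.Sol (-d) z) → ∀ H > (0 : ℝ),
    ∃ a b, (N.net I K).Sol H a b) : Nonempty BCRed := by
  obtain ⟨C, e, hC, hsound⟩ := N.net_sound
  obtain ⟨c, hc⟩ := exists_nat_ge C
  have hisz : ∀ I K, 4 ≤ N.isize I K := by intro I K; unfold N.isize; omega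
  set sz : (List Bool × ℕ × List LQ.Form) × ℕ → ℕ := fun x => N.isize (toInst x.1) x.2 with hsz
  set m1 : (List Bool × ℕ × List LQ.Form) × ℕ → ℕ := fun x => 37 * sz x with hm1
  set m2 : (List Bool × ℕ × List LQ.Form) × ℕ → ℕ := fun x => 28 * sz x with hm2
  set M : (List Bool × ℕ × List LQ.Form) × ℕ → ℕ := fun x => c * sz x ^ e + 1000000000 * (m1 x + m2 x + 2) with hM
  have hszPT : PT sz := isize_PT
  have h1PT : PT m1 := by rw [hm1]; fun_prop
  have h2PT : PT m2 := by rw [hm2]; fun_prop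
  have hMPT : PT M := by
    have := powC hszPT e
    rw [hM]; fun_prop
  have hMZ : ∀ x, 1000000000 * ((m1 x : ℤ) + m2 x + 2) ≤ ((M x : ℕ) : ℤ) := by
    intro x; rw [hM]; push_cast
    have : (0 : ℤ) ≤ (c : ℤ) * (sz x : ℤ) ^ e := by positivity
    linarith
  have hM9 : ∀ x, (1000000000 : ℤ) ≤ ((M x : ℕ) : ℤ) := by
    intro x
    have := hMZ x
    have h1 : (0 : ℤ) ≤ (m1 x : ℤ) := Int.natCast_nonneg _
    have h2 : (0 : ℤ) ≤ (m2 x : ℤ) := Int.natCast_nonneg _
    linarith
  have hm1' : ∀ x, 1 ≤ m1 x := fun x => by have := hisz (toInst x.1) x.2; rw [hm1, hsz]; simp only; omega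
  have hm2' : ∀ x, 1 ≤ m2 x := fun x => by have := hisz (toInst x.1) x.2; rw [hm2, hsz]; simp only; omega
  have hbox : ∀ x, InBox (N.net (toInst x.1) x.2) (m1 x) (m2 x) := by
    intro x X Y h
    obtain ⟨h1, h2, h3, h4⟩ := N.net_box h
    rw [hm1, hm2, hsz]
    push_cast
    exact ⟨h1, by linarith, h3, by linarith⟩
  refine ⟨⟨fun x => (L.P (m1 x) (m2 x), L.Q (M x) (N.net (toInst x.1) x.2) (m1 x) (m2 x), 2 * m1 x * m2 x),
    ?_, ?_, ?_⟩⟩
  · have hP : PT fun x => L.P (m1 x) (m2 x) := L.ptP.comp (g := fun x => (m1 x, m2 x)) (by fun_prop)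
    have hQ : PT fun x => L.Q ((M x : ℕ) : ℤ) (N.net (toInst x.1) x.2) (m1 x) (m2 x) := by
      refine L.ptQ (by fun_prop) h1PT h2PT ?_ ?_
      · exact netAct_PT (c := fun y : ((List Bool × ℕ × List LQ.Form) × ℕ) × ℤ × ℤ => y.1) (by fun_prop) (by fun_prop)
          (by fun_prop)
      · exact netCup_PT (c := fun y : ((List Bool × ℕ × List LQ.Form) × ℕ) × ℤ × ℤ => y.1) (by fun_prop) (by fun_prop)
          (by fun_prop)
    fun_prop
  · rintro x hwf ⟨z, hz⟩
    have hMpos : (0 : ℝ) < ((M x : ℕ) : ℝ) := by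
      have := hM9 x
      have h2 : (1000000000 : ℝ) ≤ ((M x : ℕ) : ℝ) := by exact_mod_cast this
      linarith
    obtain ⟨a, b, hab⟩ := hcomp (toInst x.1) x.2 hwf ⟨1 / 2 ^ (2 ^ x.2), by positivity, z, hz⟩
      (1 / (1000000 * ((M x : ℕ) : ℝ))) (by positivity)
    obtain ⟨A, B, hAB⟩ := tpos_of_sol (M := ((M x : ℕ) : ℤ)) (hM9 x) (N.net (toInst x.1) x.2) (n1 := m1 x) (n2 := m2 x)
      (H := 1 / (1000000 * ((M x : ℕ) : ℝ))) (by push_cast; exact le_rfl) (hbox x) hab
    exact L.complete _ _ _ _ A B (hm1' x) (hm2' x) (hMZ x) (hbox x) hAB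
  · intro x hwf hcw
    obtain ⟨s, p, q, T, hT⟩ := L.comp _ _ _ _ (hm1' x) (hm2' x) (hMZ x) (hbox x) hcw
    obtain ⟨A, B, hAB⟩ := tpos_of_comp (L.patch _ _ _ _ (hm1' x) (hm2' x) (hMZ x) (hbox x)) hT
    obtain ⟨a, b, hab⟩ := sol_of_tpos (M := ((M x : ℕ) : ℤ)) (hM9 x) (N.net (toInst x.1) x.2) (hbox x) hAB
    refine hsound (toInst x.1) x.2 hwf _ a b ?_ hab
    have hMpos : (0 : ℝ) < ((M x : ℕ) : ℝ) := by
      have := hM9 x
      have h2 : (1000000000 : ℝ) ≤ ((M x : ℕ) : ℝ) := by exact_mod_cast this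
      linarith
    have hle : C * (N.isize (toInst x.1) x.2 : ℝ) ^ e ≤ ((M x : ℕ) : ℝ) := by
      have h1 : C * (N.isize (toInst x.1) x.2 : ℝ) ^ e ≤ (c : ℝ) * (N.isize (toInst x.1) x.2 : ℝ) ^ e :=
        mul_le_mul_of_nonneg_right hc (by positivity)
      have h2 : ((c * sz x ^ e : ℕ) : ℝ) ≤ ((M x : ℕ) : ℝ) := by
        rw [hM]; exact_mod_cast Nat.le_add_right _ _
      rw [hsz] at h2
      push_cast at h2
      exact h1.trans (by exact_mod_cast h2)
    push_cast
    rw [one_div, inv_mul_le_iff₀ hMpos, mul_one]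
    exact hle

end Pool.Agent.Lib.MP_6ff0c5_lc.PTA
end

section

/-!
MP_6ff0c5_lc: the theorem from the layout.
-/

set_option autoImplicit false

namespace Pool.Agent.Lib.MP_6ff0c5_lc.PTA

/-- **Compatible triangulation is hard**, from the layout of the patch. -/
theorem hard_of_LayI (L : LayI) : ExistsRHard CT := by
  obtain ⟨B⟩ := bcred_of L (fun I K hI ⟨_, hd, hz⟩ _ hH => N.net_complete hI K hd hz hH)
  exact hard_of_BCRed B

end Pool.Agent.Lib.MP_6ff0c5_lc.PTA
end

section

/-!
MP_6ff0c5_lc, part C: the layout.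
-/

set_option autoImplicit false

namespace Pool.Agent.Lib.MP_6ff0c5_lc.PTA

open Pool.Agent.Lib.MP_6ff0c5_lc
open Pool.Agent.Lib.MP_6ff0c5_lc.C

theorem inB_of_inBox {N : N.Net} {a b : ℕ} (h : InBox N (a + 1) (b + 1)) : InB N a b := by
  intro x y hxy
  obtain ⟨h1, h2, h3, h4⟩ := h x y hxy
  push_cast at h2 h4
  exact ⟨h1, by linarith, h3, by linarith⟩

/-- **The layout.** -/
noncomputable def layI : LayI where
  P := fun n1 n2 => layP (n1 - 1) (n2 - 1)
  Q := fun M N n1 n2 => layQ M N (n1 - 1) (n2 - 1)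
  num := fun n1 n2 => num (allL (n1 - 1) (n2 - 1))
  patch := by
    intro M N n1 n2 h1 h2 hM hN
    obtain ⟨a, rfl⟩ : ∃ a, n1 = a + 1 := ⟨n1 - 1, by omega⟩
    obtain ⟨b, rfl⟩ : ∃ b, n2 = b + 1 := ⟨n2 - 1, by omega⟩
    rw [mkPoly_layP, mkPoly_layQ]
    simp only [Nat.add_sub_cancel]
    exact lay_patch (by push_cast at hM; linarith) (inB_of_inBox hN)
  comp := by
    intro M N n1 n2 h1 h2 hM hN hcw
    obtain ⟨a, rfl⟩ : ∃ a, n1 = a + 1 := ⟨n1 - 1, by omega⟩
    obtain ⟨b, rfl⟩ : ∃ b, n2 = b + 1 := ⟨n2 - 1, by omega⟩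
    rw [mkPoly_layP, mkPoly_layQ] at hcw ⊢
    simp only [Nat.add_sub_cancel] at hcw ⊢
    exact lay_comp (by push_cast at hM; linarith) N hcw
  complete := by
    intro M N n1 n2 A B h1 h2 hM hN hAB
    obtain ⟨a, rfl⟩ : ∃ a, n1 = a + 1 := ⟨n1 - 1, by omega⟩
    obtain ⟨b, rfl⟩ : ∃ b, n2 = b + 1 := ⟨n2 - 1, by omega⟩
    rw [mkPoly_layP, mkPoly_layQ]
    simp only [Nat.add_sub_cancel]
    exact lay_complete (by push_cast at hM; linarith) N hAB
  ptP := layPPT
  ptQ := fun hM h1 h2 hact hcup => layQPT hM h1 h2 hact hcup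

end Pool.Agent.Lib.MP_6ff0c5_lc.PTA
end

section

/-!
MP_6ff0c5_lc: compatible triangulation is hard for the existential theory of the reals.
-/

set_option autoImplicit false

namespace Pool.Agent.Lib.MP_6ff0c5_lc

/-- **Compatible triangulation of polygons with holes is hard for the existential theory of the reals.** -/
theorem compatTriang_hard : ExistsRHard CT := PTA.hard_of_LayI PTA.layI

end Pool.Agent.Lib.MP_6ff0c5_lc
end
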